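import Pool.Agent.Q120.Adm.Growth

/-!
Many solutions of `g₀ = v` for functions `v` of moderate growth.
-/

set_option autoImplicit false

open Metric Set Topology Filter

namespace Pool.Agent.Q120.Adm

/-- a fast growing function -/
noncomputable def EE (z : ℂ) : ℂ := Complex.exp (Complex.exp (Complex.exp (1 / (1 - z))))

theorem zbound {L : ℂ} {Y c : ℝ} (h2 : 2 ≤ L.re) (hi : |L.im| ≤ 2) (hY : L.re ≤ Y)
    (hc0 : 0 ≤ c) (hc : c ≤ 1 / 2) : ‖(1 - 1 / L) - c‖ ≤ 1 - c - 1 / (8 * Y) := by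
  set t := 1 / (8 * Y) with ht
  have hY2 : 2 ≤ Y := h2.trans hY
  have ht0 : 0 < t := by positivity
  have ht1 : t ≤ 1 / 16 := by
    rw [ht, div_le_div_iff₀ (by positivity) (by norm_num)]; linarith
  have hN : Complex.normSq L = L.re ^ 2 + L.im ^ 2 := by rw [Complex.normSq_apply]; ring
  have him : L.im ^ 2 ≤ 4 := by
    have := sq_abs L.im
    nlinarith [abs_nonneg L.im]
  have hN0 : 0 < Complex.normSq L := by rw [hN]; nlinarith [sq_nonneg L.im]
  have hsq : ‖(1 - 1 / L) - c‖ ^ 2 =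
      (1 - c) ^ 2 - (2 * (1 - c) * L.re - 1) / Complex.normSq L := by
    rw [← Complex.normSq_eq_norm_sq, Complex.normSq_apply]
    have h1 : (1 - 1 / L - (c:ℂ)).re = 1 - c - L.re / Complex.normSq L := by
      rw [one_div]; simp [Complex.inv_re]; ring
    have h3 : (1 - 1 / L - (c:ℂ)).im = L.im / Complex.normSq L := by
      rw [one_div]; simp [Complex.inv_im]; ring
    rw [h1, h3]
    have h4 : L.im ^ 2 = Complex.normSq L - L.re ^ 2 := by rw [hN]; ring
    field_simp
    nlinarith [h4]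
  have hle : ‖(1 - 1 / L) - c‖ ^ 2 ≤ (1 - c - t) ^ 2 := by
    rw [hsq]
    have h5 : 2 * t ≤ (2 * (1 - c) * L.re - 1) / Complex.normSq L := by
      rw [le_div_iff₀ hN0, ht]
      have h6 : Complex.normSq L ≤ 2 * L.re ^ 2 := by rw [hN]; nlinarith
      have h7 : L.re / 2 ≤ 2 * (1 - c) * L.re - 1 := by nlinarith
      have h8 : 2 * (1 / (8 * Y)) * Complex.normSq L ≤ 2 * (1 / (8 * Y)) * (2 * L.re ^ 2) :=
        mul_le_mul_of_nonneg_left h6 (by positivity)
      have h9 : 2 * (1 / (8 * Y)) * (2 * L.re ^ 2) ≤ L.re / 2 := by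
        have : 2 * (1 / (8 * Y)) * (2 * L.re ^ 2) = L.re / 2 * (L.re / Y) := by
          field_simp; ring
        rw [this]
        have : L.re / Y ≤ 1 := by rw [div_le_one (by linarith)]; exact hY
        nlinarith
      linarith
    nlinarith
  exact le_of_sq_le_sq hle (by linarith)

/-- estimates for iterated logarithms -/
theorem logs {s : ℂ} {k : ℝ} (hk : Real.exp (Real.exp (Real.exp 2)) + 1 ≤ k)
    (hs : ‖s - k‖ ≤ 1 / 12) :
    0 < s.re ∧ 0 < (Complex.log s).re ∧ 0 < (Complex.log (Complex.log s)).re ∧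
    2 ≤ (Complex.log (Complex.log (Complex.log s))).re ∧
    |(Complex.log (Complex.log (Complex.log s))).im| ≤ 2 ∧
    (Complex.log (Complex.log (Complex.log s))).re ≤ Real.log (Real.log (Real.log k)) + 2 := by
  have hpi2 : Real.pi / 2 ≤ 2 := by linarith [Real.pi_le_four]
  have hre : |s.re - k| ≤ 1 / 12 := by
    have := (Complex.abs_re_le_norm (s - k)).trans hs
    simpa using this
  rw [abs_le] at hre
  have he := Real.exp_pos (Real.exp (Real.exp 2))
  have hsre : 0 < s.re := by linarith [hre.1]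
  have hT1 : Real.exp (Real.exp (Real.exp 2)) ≤ ‖s‖ :=
    le_trans (by linarith [hre.1]) (Complex.re_le_norm s)
  have hT2 : ‖s‖ ≤ k + 1 := by
    have h1 : ‖s‖ ≤ ‖s - k‖ + ‖(k:ℂ)‖ := by simpa using norm_add_le (s - k) (k:ℂ)
    rw [Complex.norm_real, Real.norm_eq_abs, abs_of_pos (by linarith)] at h1
    linarith
  have hT0 : 0 < ‖s‖ := lt_of_lt_of_le he hT1
  set L1 := Complex.log s with hL1
  set L2 := Complex.log L1 with hL2
  set L3 := Complex.log L2 with hL3
  have a1 : L1.re = Real.log ‖s‖ := Complex.log_re s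
  have a2 : L2.re = Real.log ‖L1‖ := Complex.log_re L1
  have a3 : L3.re = Real.log ‖L2‖ := Complex.log_re L2
  have b1 : |L1.im| ≤ 2 := by
    rw [hL1, Complex.log_im]
    exact (Complex.abs_arg_le_pi_div_two_iff.2 hsre.le).trans hpi2
  have c1 : Real.exp (Real.exp 2) ≤ L1.re := by
    rw [a1, Real.le_log_iff_exp_le hT0]; exact hT1
  have c1' : 0 < L1.re := lt_of_lt_of_le (Real.exp_pos _) c1
  have d1 : L1.re ≤ ‖L1‖ := Complex.re_le_norm L1
  have e1 : ‖L1‖ ≤ L1.re + 2 := by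
    have := Complex.norm_le_abs_re_add_abs_im L1
    rw [abs_of_pos c1'] at this
    linarith
  have b2 : |L2.im| ≤ 2 := by
    rw [hL2, Complex.log_im]
    exact (Complex.abs_arg_le_pi_div_two_iff.2 c1'.le).trans hpi2
  have c2 : Real.exp 2 ≤ L2.re := by
    rw [a2, Real.le_log_iff_exp_le (by linarith)]; linarith
  have c2' : 0 < L2.re := lt_of_lt_of_le (Real.exp_pos _) c2
  have d2 : L2.re ≤ ‖L2‖ := Complex.re_le_norm L2
  have e2 : ‖L2‖ ≤ L2.re + 2 := by
    have := Complex.norm_le_abs_re_add_abs_im L2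
    rw [abs_of_pos c2'] at this
    linarith
  have b3 : |L3.im| ≤ 2 := by
    rw [hL3, Complex.log_im]
    exact (Complex.abs_arg_le_pi_div_two_iff.2 c2'.le).trans hpi2
  have c3 : 2 ≤ L3.re := by
    rw [a3, Real.le_log_iff_exp_le (by linarith)]; linarith
  refine ⟨hsre, c1', c2', c3, b3, ?_⟩
  -- the upper bound
  have hk0 : 0 < k := by linarith
  have hlk : Real.exp (Real.exp 2) ≤ Real.log k := by
    rw [Real.le_log_iff_exp_le hk0]; linarith
  have hllk : Real.exp 2 ≤ Real.log (Real.log k) := by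
    rw [Real.le_log_iff_exp_le (lt_of_lt_of_le (Real.exp_pos _) hlk)]; exact hlk
  have he2 : 5 ≤ Real.exp 2 := by
    have h1 : Real.exp 2 = Real.exp 1 * Real.exp 1 := by rw [← Real.exp_add]; norm_num
    have h2 := Real.exp_one_gt_d9
    rw [h1]; nlinarith
  have hee2 : 1 ≤ Real.exp (Real.exp 2) := Real.one_le_exp (by positivity)
  have hlk1 : 1 ≤ Real.log k := by linarith
  have hllk1 : 1 ≤ Real.log (Real.log k) := by linarith
  have f1 : L1.re ≤ Real.log k + 1 := by
    rw [a1]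
    have h1 : ‖s‖ ≤ k * Real.exp 1 := by
      have h2 := Real.add_one_le_exp (1:ℝ)
      nlinarith
    have h3 := Real.log_le_log hT0 h1
    rw [Real.log_mul hk0.ne' (Real.exp_pos _).ne', Real.log_exp] at h3
    exact h3
  have f2 : L2.re ≤ Real.log (Real.log k) + 2 := by
    rw [a2]
    have h1 : ‖L1‖ ≤ Real.log k * Real.exp 2 := by nlinarith
    have h3 := Real.log_le_log (by linarith) h1
    rw [Real.log_mul (by linarith) (Real.exp_pos _).ne', Real.log_exp] at h3
    exact h3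
  rw [a3]
  have h1 : ‖L2‖ ≤ Real.log (Real.log k) * Real.exp 2 := by nlinarith
  have h3 := Real.log_le_log (by linarith) h1
  rw [Real.log_mul (by linarith) (Real.exp_pos _).ne', Real.log_exp] at h3
  exact h3

theorem exp_int_lower {s : ℂ} {k : ℕ} (hs : ‖s - k‖ = 1 / (4 * Real.pi)) :
    1 / 4 ≤ ‖Complex.exp (2 * Real.pi * Complex.I * s) - 1‖ := by
  set w : ℂ := 2 * Real.pi * Complex.I * (s - k) with hw
  have e1 : Complex.exp (2 * Real.pi * Complex.I * s) = Complex.exp w := by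
    have : 2 * Real.pi * Complex.I * s = w + k * (2 * Real.pi * Complex.I) := by rw [hw]; ring
    rw [this, Complex.exp_add, Complex.exp_nat_mul_two_pi_mul_I, mul_one]
  have hwn : ‖w‖ = 1 / 2 := by
    rw [hw, norm_mul, norm_mul, norm_mul, Complex.norm_I, Complex.norm_real, Complex.norm_ofNat, hs,
      Real.norm_eq_abs, abs_of_pos Real.pi_pos]
    have := Real.pi_pos
    field_simp
    norm_num
  have h1 := Complex.norm_exp_sub_one_sub_id_le (x := w) (by rw [hwn]; norm_num)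
  have h2 : ‖w‖ ≤ ‖Complex.exp w - 1‖ + ‖Complex.exp w - 1 - w‖ := by
    have := norm_sub_le (Complex.exp w - 1) (Complex.exp w - 1 - w)
    simpa using this
  rw [e1]
  rw [hwn] at h1 h2
  linarith

/-- in each cell the equation `g₀ = v` has a solution -/
theorem cell {v : ℂ → ℂ} (hv : DifferentiableOn ℂ v (ball 0 1)) {M : ℝ}
    (hM : ∀ z ∈ ball (0:ℂ) 1,
      ‖v z‖ ≤ Real.exp (Real.pi * Real.exp (Real.pi * (M + 192 / (1 - ‖z‖))))) :
    ∃ k₀ : ℕ, ∀ k : ℕ, k₀ ≤ k → ∃ z ∈ ball (0:ℂ) 1,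
      EE z * (Complex.exp (2 * Real.pi * Complex.I * EE z) - 1) = v z ∧
      ‖EE z - k‖ ≤ 1 / 12 ∧ ∀ c : ℝ, 0 ≤ c → c ≤ 1 / 2 →
        ‖z - c‖ ≤ 1 - c - 1 / (8 * (Real.log (Real.log (Real.log k)) + 2)) := by
  obtain ⟨X₀, hX₀, hbig⟩ := big (Real.pi * (M + 3072)) (1536 * Real.pi) 16
  refine ⟨⌈Real.exp (Real.exp (Real.exp (X₀ + 2))) + 1⌉₊, fun k hk => ?_⟩
  have hk1 : Real.exp (Real.exp (Real.exp (X₀ + 2))) + 1 ≤ k := Nat.ceil_le.1 hk
  have hmono : Real.exp (Real.exp (Real.exp 2)) ≤ Real.exp (Real.exp (Real.exp (X₀ + 2))) :=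
    Real.exp_le_exp.2 (Real.exp_le_exp.2 (Real.exp_le_exp.2 (by linarith)))
  have hk2 : Real.exp (Real.exp (Real.exp 2)) + 1 ≤ k := by linarith
  have hk0 : (0:ℝ) < k := by
    have := Real.exp_pos (Real.exp (Real.exp 2)); linarith
  set X := Real.log (Real.log (Real.log k)) with hX
  have g1 : Real.exp (Real.exp (X₀ + 2)) ≤ Real.log k := by
    rw [Real.le_log_iff_exp_le hk0]; linarith
  have g1' : 0 < Real.log k := lt_of_lt_of_le (Real.exp_pos _) g1
  have g2 : Real.exp (X₀ + 2) ≤ Real.log (Real.log k) := by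
    rw [Real.le_log_iff_exp_le g1']; exact g1
  have g2' : 0 < Real.log (Real.log k) := lt_of_lt_of_le (Real.exp_pos _) g2
  have g3 : X₀ + 2 ≤ X := by
    rw [hX, Real.le_log_iff_exp_le g2']; exact g2
  have hkX : Real.exp (Real.exp (Real.exp X)) = k := by
    rw [hX, Real.exp_log g2', Real.exp_log g1', Real.exp_log hk0]
  have hb := hbig X (by linarith)
  rw [hkX] at hb
  set V := Real.exp (Real.pi * Real.exp (Real.pi * (M + 3072) + 1536 * Real.pi * X)) with hV
  have hV0 : 0 < V := Real.exp_pos _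
  have hV8 : 8 * V + 1 < k := by nlinarith
  set ρ : ℝ := 1 / (4 * Real.pi) with hρ
  have hρ0 : 0 < ρ := by have := Real.pi_pos; positivity
  have hρ1 : ρ ≤ 1 / 12 := by
    rw [hρ]
    apply one_div_le_one_div_of_le (by norm_num)
    linarith [Real.pi_gt_three]
  set Ψ : ℂ → ℂ := fun s => 1 - 1 / Complex.log (Complex.log (Complex.log s)) with hΨ
  have hzb : ∀ s : ℂ, ‖s - k‖ ≤ 1 / 12 → ∀ c : ℝ, 0 ≤ c → c ≤ 1 / 2 →
      ‖Ψ s - c‖ ≤ 1 - c - 1 / (8 * (X + 2)) := by
    intro s hs c hc0 hc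
    obtain ⟨-, -, -, h4, h5, h6⟩ := logs hk2 (s := s) (by exact_mod_cast hs)
    exact zbound h4 h5 h6 hc0 hc
  have hX2 : 2 ≤ X := by linarith
  have hΨb : ∀ s : ℂ, ‖s - k‖ ≤ 1 / 12 → ‖Ψ s‖ ≤ 1 - 1 / (8 * (X + 2)) := by
    intro s hs
    have := hzb s hs 0 le_rfl (by norm_num)
    simpa using this
  have hΨball : ∀ s : ℂ, ‖s - k‖ ≤ 1 / 12 → Ψ s ∈ ball (0:ℂ) 1 := by
    intro s hs
    rw [mem_ball_zero_iff]
    have h1 := hΨb s hs
    have : 0 < 1 / (8 * (X + 2)) := by positivity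
    linarith
  have hvb : ∀ s : ℂ, ‖s - k‖ ≤ 1 / 12 → ‖v (Ψ s)‖ ≤ V := by
    intro s hs
    refine (hM _ (hΨball s hs)).trans ?_
    rw [hV]
    apply Real.exp_le_exp.2
    refine mul_le_mul_of_nonneg_left (Real.exp_le_exp.2 ?_) Real.pi_pos.le
    have h1 := hΨb s hs
    have h2 : 0 < 1 / (8 * (X + 2)) := by positivity
    have h3 : 192 / (1 - ‖Ψ s‖) ≤ 192 * (8 * (X + 2)) := by
      rw [div_le_iff₀ (by linarith)]
      have h4 : 1 / (8 * (X + 2)) ≤ 1 - ‖Ψ s‖ := by linarith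
      have h5 : 192 * (8 * (X + 2)) * (1 / (8 * (X + 2))) = 192 := by
        field_simp
      calc (192:ℝ) = 192 * (8 * (X + 2)) * (1 / (8 * (X + 2))) := h5.symm
        _ ≤ 192 * (8 * (X + 2)) * (1 - ‖Ψ s‖) :=
            mul_le_mul_of_nonneg_left h4 (by positivity)
    have h6 : Real.pi * (M + 192 / (1 - ‖Ψ s‖)) ≤ Real.pi * (M + 192 * (8 * (X + 2))) :=
      mul_le_mul_of_nonneg_left (by linarith) Real.pi_pos.le
    refine h6.trans (le_of_eq ?_)
    ring
  have hEE : ∀ s : ℂ, ‖s - k‖ ≤ 1 / 12 → EE (Ψ s) = s := by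
    intro s hs
    obtain ⟨h1, h2, h3, h4, -, -⟩ := logs hk2 (s := s) (by exact_mod_cast hs)
    have n1 : s ≠ 0 := fun h => by rw [h] at h1; simp at h1
    have n2 : Complex.log s ≠ 0 := fun h => by rw [h] at h2; simp at h2
    have n3 : Complex.log (Complex.log s) ≠ 0 := fun h => by rw [h] at h3; simp at h3
    have n4 : Complex.log (Complex.log (Complex.log s)) ≠ 0 := fun h => by
      rw [h] at h4; simp at h4; linarith
    have e1 : 1 / (1 - Ψ s) = Complex.log (Complex.log (Complex.log s)) := by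
      rw [hΨ]; simp
    rw [EE, e1, Complex.exp_log n3, Complex.exp_log n2, Complex.exp_log n1]
  set h : ℂ → ℂ := fun s => s * (Complex.exp (2 * Real.pi * Complex.I * s) - 1) - v (Ψ s) with hh
  have hdiff : ∀ s : ℂ, ‖s - k‖ ≤ 1 / 12 → DifferentiableAt ℂ h s := by
    intro s hs
    obtain ⟨h1, h2, h3, h4, -, -⟩ := logs hk2 (s := s) (by exact_mod_cast hs)
    have n4 : Complex.log (Complex.log (Complex.log s)) ≠ 0 := fun h => by
      rw [h] at h4; simp at h4; linarith
    have m1 : DifferentiableAt ℂ (fun s : ℂ => Complex.log s) s :=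
      differentiableAt_id.clog (Or.inl h1)
    have m2 : DifferentiableAt ℂ (fun s : ℂ => Complex.log (Complex.log s)) s :=
      m1.clog (Or.inl h2)
    have m3 : DifferentiableAt ℂ (fun s : ℂ => Complex.log (Complex.log (Complex.log s))) s :=
      m2.clog (Or.inl h3)
    have m4 : DifferentiableAt ℂ Ψ s := (differentiableAt_const _).sub
      ((differentiableAt_const _).div m3 n4)
    have m5 : DifferentiableAt ℂ v (Ψ s) :=
      hv.differentiableAt (isOpen_ball.mem_nhds (hΨball s hs))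
    have m6 : DifferentiableAt ℂ (fun s => v (Ψ s)) s := m5.comp s m4
    exact DifferentiableAt.sub (by fun_prop) m6
  have hcb : ∀ s ∈ closedBall (k:ℂ) ρ, ‖s - k‖ ≤ 1 / 12 := by
    intro s hs
    rw [mem_closedBall, dist_eq_norm] at hs
    exact hs.trans hρ1
  have hzero : ∃ s ∈ closedBall (k:ℂ) ρ, h s = 0 := by
    by_contra hcon
    push Not at hcon
    have hcl : closure (ball (k:ℂ) ρ) = closedBall (k:ℂ) ρ := closure_ball _ hρ0.ne'
    have hG : DiffContOnCl ℂ (fun s => (h s)⁻¹) (ball (k:ℂ) ρ) := by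
      refine ⟨fun s hs => ?_, fun s hs => ?_⟩
      · have hs' := ball_subset_closedBall hs
        exact ((hdiff s (hcb s hs')).inv (hcon s hs')).differentiableWithinAt
      · rw [hcl] at hs
        exact ((hdiff s (hcb s hs)).inv (hcon s hs)).continuousAt.continuousWithinAt
    have hfr : ∀ s ∈ frontier (ball (k:ℂ) ρ), ‖(h s)⁻¹‖ ≤ ((k - 1) / 4 - V)⁻¹ := by
      intro s hs
      rw [frontier_ball _ hρ0.ne', mem_sphere, dist_eq_norm] at hs
      have hs1 : ‖s - k‖ ≤ 1 / 12 := by rw [hs]; exact hρ1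
      have q1 := exp_int_lower (k := k) hs
      have q2 := hvb s hs1
      have q3 : (k:ℝ) - 1 ≤ ‖s‖ := by
        have h7 : ‖(k:ℂ)‖ ≤ ‖s‖ + ‖s - k‖ := by
          have := norm_sub_le s (s - k)
          simpa using this
        rw [Complex.norm_natCast] at h7
        linarith
      have q4 : (k - 1) / 4 ≤ ‖s * (Complex.exp (2 * Real.pi * Complex.I * s) - 1)‖ := by
        rw [norm_mul]
        have hk3 : (0:ℝ) ≤ k - 1 := by linarith
        calc ((k:ℝ) - 1) / 4 = (k - 1) * (1 / 4) := by ring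
          _ ≤ ‖s‖ * ‖Complex.exp (2 * Real.pi * Complex.I * s) - 1‖ :=
              mul_le_mul q3 q1 (by norm_num) (norm_nonneg _)
      have q5 : (k - 1) / 4 - V ≤ ‖h s‖ := by
        have := norm_sub_norm_le (s * (Complex.exp (2 * Real.pi * Complex.I * s) - 1)) (v (Ψ s))
        rw [hh]
        simp only
        linarith
      rw [norm_inv]
      exact inv_anti₀ (by linarith) q5
    have hmem : (k:ℂ) ∈ closure (ball (k:ℂ) ρ) := subset_closure (mem_ball_self hρ0)
    have hmax := Complex.norm_le_of_forall_mem_frontier_norm_le isBounded_ball hG hfr hmem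
    have hk' : ‖(k:ℂ) - k‖ ≤ 1 / 12 := by simp
    have hhk : h k = - v (Ψ k) := by
      rw [hh]
      simp only
      have : Complex.exp (2 * Real.pi * Complex.I * k) = 1 := by
        rw [mul_comm]; exact Complex.exp_nat_mul_two_pi_mul_I k
      rw [this]; ring
    have hne : h k ≠ 0 := hcon k (mem_closedBall_self hρ0.le)
    have hpos : 0 < ‖h k‖ := norm_pos_iff.2 hne
    rw [norm_inv] at hmax
    have q6 : (k - 1) / 4 - V ≤ ‖h k‖ := (inv_le_inv₀ hpos (by linarith)).1 hmax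
    have q7 : ‖h k‖ ≤ V := by rw [hhk, norm_neg]; exact hvb _ hk'
    linarith
  obtain ⟨s, hs, hs0⟩ := hzero
  have hs1 := hcb s hs
  refine ⟨Ψ s, hΨball s hs1, ?_, ?_, hzb s hs1⟩
  · rw [hEE s hs1]
    exact sub_eq_zero.1 hs0
  · rw [hEE s hs1]; exact hs1

end Pool.Agent.Q120.Adm
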