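import Pool.Agent.Q120.Adm.Ints

/-!
Definability of constants, of the unit disc, and of geometric sequences in the ring of
holomorphic functions on the disc.
-/

set_option autoImplicit false

open Metric Set Topology Filter

namespace Pool.Agent.Q120.Adm

theorem cst_inj {a b : ℂ} (h : cst a = cst b) : a = b := by
  have := congrArg (fun x : H => (x : ℂ → ℂ) 0) h
  simpa [cst_app _ zero_mem] using this

theorem cst_add (a b : ℂ) : cst a + cst b = cst (a + b) := ext' fun z hz => by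
  rw [add_app, cst_app _ hz, cst_app _ hz, cst_app _ hz]

theorem cst_mul (a b : ℂ) : cst a * cst b = cst (a * b) := ext' fun z hz => by
  rw [mul_app, cst_app _ hz, cst_app _ hz, cst_app _ hz]

theorem cst_sub (a b : ℂ) : cst a - cst b = cst (a - b) := ext' fun z hz => by
  rw [sub_app, cst_app _ hz, cst_app _ hz, cst_app _ hz]

theorem cst_one : (cst 1 : H) = 1 := ext' fun z hz => by rw [cst_app _ hz, one_app]

theorem cst_zero : (cst 0 : H) = 0 := ext' fun z hz => by rw [cst_app _ hz, zero_app]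

theorem Uz_cst (k : ℂ) : Uz (cst k) := by
  by_cases hk : k = 0
  · left; rw [hk, cst_zero]
  · right
    rw [isUnit_iff]
    intro z hz
    rw [cst_app _ hz]
    exact hk

/-- first parameter -/
noncomputable def g0 : H := mk gf gf_diff

/-- second parameter -/
noncomputable def f0 : H := mk (fun z => Phi (gf z)) (Phi_diff.comp_differentiableOn gf_diff)

theorem NN_iff (v : H) : NN g0 f0 v ↔ ∃ n : ℤ, v = cst n := by
  constructor
  · rintro ⟨⟨h1, h2⟩, h3⟩
    rcases h1 with h1 | h1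
    · exact ⟨0, by rw [h1]; simp [cst_zero]⟩
    rcases h2 with h2 | h2
    · exact ⟨1, by rw [sub_eq_zero.1 h2]; simp [cst_one]⟩
    rw [isUnit_iff] at h1 h2
    obtain ⟨M, hM⟩ := growth (diff v) h1 (fun z hz h => h2 z hz (by
      rw [sub_app, one_app, h, sub_self]))
    have hk := key (diff v) hM (fun z hz h => by
      have h4 : ((g0 - v : H) : ℂ → ℂ) z = 0 := by
        rw [sub_app]
        have : (g0 : ℂ → ℂ) z = gf z := mk_apply _ hz
        rw [this, h, sub_self]
      have h5 := app_of_dvd h3 h4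
      have : (f0 : ℂ → ℂ) z = Phi (gf z) := mk_apply _ hz
      rwa [this] at h5)
    by_cases hc : ∃ k, v = cst k
    · obtain ⟨k, rfl⟩ := hc
      have := hk 0 zero_mem
      rw [cst_app _ zero_mem, Phi_eq_zero_iff] at this
      obtain ⟨n, rfl⟩ := this
      exact ⟨n, rfl⟩
    · push Not at hc
      exfalso
      have hop := isOpen_image hc
      have h0 : (v : ℂ → ℂ) 0 ∈ (v : ℂ → ℂ) '' ball (0:ℂ) 1 := ⟨0, zero_mem, rfl⟩
      obtain ⟨ε, hε, hεs⟩ := Metric.isOpen_iff.1 hop _ h0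
      have h1' := hk 0 zero_mem
      rw [Phi_eq_zero_iff] at h1'
      obtain ⟨n, hn⟩ := h1'
      have h2' : (v : ℂ → ℂ) 0 + (ε / 2 : ℝ) * Complex.I ∈ ball ((v : ℂ → ℂ) 0) ε := by
        rw [mem_ball, dist_eq_norm, add_sub_cancel_left, norm_mul, Complex.norm_I, mul_one,
          Complex.norm_real, Real.norm_eq_abs, abs_of_pos (by linarith)]
        linarith
      obtain ⟨z, hz, hz'⟩ := hεs h2'
      have h3' := hk z hz
      rw [Phi_eq_zero_iff] at h3'
      obtain ⟨m, hm⟩ := h3'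
      rw [hm, hn] at hz'
      have := congrArg Complex.im hz'
      simp at this
      linarith
  · rintro ⟨n, rfl⟩
    refine ⟨⟨Uz_cst _, ?_⟩, ?_⟩
    · rw [← cst_one, cst_sub]; exact Uz_cst _
    · have hd : DifferentiableOn ℂ (fun z => dslope Phi (n:ℂ) (gf z)) (ball 0 1) := by
        have h1 : Differentiable ℂ (dslope Phi (n:ℂ)) := by
          have := (Complex.differentiableOn_dslope (univ_mem (f := 𝓝 (n:ℂ)))).2
            Phi_diff.differentiableOn
          exact differentiableOn_univ.1 this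
        exact h1.comp_differentiableOn gf_diff
      refine ⟨mk _ hd, ext' fun z hz => ?_⟩
      rw [mul_app, sub_app, cst_app _ hz, mk_apply _ hz]
      have e1 : (g0 : ℂ → ℂ) z = gf z := mk_apply _ hz
      have e2 : (f0 : ℂ → ℂ) z = Phi (gf z) := mk_apply _ hz
      rw [e1, e2]
      have := sub_smul_dslope Phi (n:ℂ) (gf z)
      rw [smul_eq_mul, (Phi_eq_zero_iff _).2 ⟨n, rfl⟩, sub_zero] at this
      exact this.symm

theorem good0 : Good g0 f0 := by
  refine ⟨(NN_iff _).2 ⟨1, by simp [cst_one]⟩, fun a b ha hb => ?_⟩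
  obtain ⟨m, rfl⟩ := (NN_iff _).1 ha
  obtain ⟨n, rfl⟩ := (NN_iff _).1 hb
  exact ⟨(NN_iff _).2 ⟨m - n, by rw [cst_sub]; push_cast; rfl⟩,
    (NN_iff _).2 ⟨m * n, by rw [cst_mul]; push_cast; rfl⟩⟩

theorem dens {Ω : Set ℂ} (hΩ : IsOpen Ω) {w : ℂ} (hw : w ∈ Ω) :
    ∃ a b d : ℤ, d ≠ 0 ∧ ((a:ℂ) + b * Complex.I) / d ∈ Ω := by
  obtain ⟨ε, hε, hεs⟩ := Metric.isOpen_iff.1 hΩ w hw
  set d : ℤ := ⌈2 / ε⌉ + 1 with hd
  have hd1 : 2 / ε < d := by
    have := Int.le_ceil (2 / ε)
    rw [hd]; push_cast; linarith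
  have hd0 : (0:ℝ) < d := lt_trans (by positivity) hd1
  refine ⟨round (d * w.re), round (d * w.im), d, by
    intro h; rw [h] at hd0; simp at hd0, hεs ?_⟩
  rw [mem_ball, dist_eq_norm]
  have hdc : (d:ℂ) ≠ 0 := by
    intro h
    have : (d:ℝ) = 0 := by exact_mod_cast h
    linarith
  have e : ((round (d * w.re) : ℤ) + (round (d * w.im) : ℤ) * Complex.I : ℂ) / d - w =
      (((round (d * w.re) : ℤ) - d * w.re : ℝ) + ((round (d * w.im) : ℤ) - d * w.im : ℝ) * Complex.I) / d := by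
    have hw' : w = w.re + w.im * Complex.I := (Complex.re_add_im w).symm
    field_simp
    push_cast
    linear_combination (-(d:ℂ)) * hw'
  rw [e, norm_div]
  have h1 : ‖((((round (d * w.re) : ℤ) - d * w.re : ℝ) : ℂ) +
      (((round (d * w.im) : ℤ) - d * w.im : ℝ) : ℂ) * Complex.I)‖ ≤ 1 / 2 + 1 / 2 := by
    refine (norm_add_le _ _).trans (add_le_add ?_ ?_)
    · rw [Complex.norm_real, Real.norm_eq_abs, abs_sub_comm]
      exact abs_sub_round _
    · rw [norm_mul, Complex.norm_I, mul_one, Complex.norm_real, Real.norm_eq_abs, abs_sub_comm]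
      exact abs_sub_round _
  have h2 : ‖(d:ℂ)‖ = d := by
    rw [Complex.norm_intCast, abs_of_pos hd0]
  rw [h2, div_lt_iff₀ hd0]
  have h3 : 2 < ε * d := by
    rw [div_lt_iff₀ hε] at hd1
    linarith
  linarith

/-- the subring `NN g f` -/
def NNsub {g f : H} (hg : Good g f) : Subring H where
  carrier := {v | NN g f v}
  mul_mem' := fun ha hb => (hg.2 _ _ ha hb).2
  one_mem' := hg.1
  zero_mem' := by
    have := (hg.2 _ _ hg.1 hg.1).1
    rwa [sub_self] at this
  add_mem' := by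
    intro a b ha hb
    have h0 : NN g f 0 := by
      have := (hg.2 _ _ hg.1 hg.1).1
      rwa [sub_self] at this
    have h1 := (hg.2 _ _ h0 hb).1
    have h2 := (hg.2 _ _ ha h1).1
    have e : a - (0 - b) = a + b := by ring
    rw [e] at h2
    exact h2
  neg_mem' := by
    intro a ha
    have h0 : NN g f 0 := by
      have := (hg.2 _ _ hg.1 hg.1).1
      rwa [sub_self] at this
    have h1 := (hg.2 _ _ h0 ha).1
    rwa [zero_sub] at h1

theorem int_app (n : ℤ) (z : ℂ) : ((n : H) : ℂ → ℂ) z = n := by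
  have : ((n : H) : ℂ → ℂ) = (n : ℂ → ℂ) := by simp
  rw [this]; rfl

theorem const_of_root {v : H} {a b d : ℤ} (hd : d ≠ 0)
    (h : ((d : H) * v - a) ^ 2 + (b : H) ^ 2 = 0) : ∃ k, v = cst k := by
  have hf : ((d : H) * v - a - cst (b * Complex.I)) * ((d : H) * v - a + cst (b * Complex.I)) = 0 := by
    rw [← h]
    refine ext' fun z hz => ?_
    have e1 : (((d : H) * v - a) ^ 2 + (b : H) ^ 2 : H) = ((d : H) * v - a) * ((d : H) * v - a) +
      (b : H) * b := by ring
    rw [e1]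
    simp only [mul_app, sub_app, add_app, int_app, cst_app _ hz]
    linear_combination (- (b:ℂ)^2) * Complex.I_sq
  have hdc : (d:ℂ) ≠ 0 := by exact_mod_cast hd
  rcases mul_eq_zero' hf with h1 | h1
  · refine ⟨(a + b * Complex.I) / d, ext' fun z hz => ?_⟩
    have := congrArg (fun x : H => (x : ℂ → ℂ) z) h1
    simp only [mul_app, sub_app, int_app, cst_app _ hz, zero_app] at this
    rw [cst_app _ hz, eq_div_iff hdc]
    linear_combination this
  · refine ⟨(a - b * Complex.I) / d, ext' fun z hz => ?_⟩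
    have := congrArg (fun x : H => (x : ℂ → ℂ) z) h1
    simp only [mul_app, sub_app, add_app, int_app, cst_app _ hz, zero_app] at this
    rw [cst_app _ hz, eq_div_iff hdc]
    linear_combination this

theorem NN_const {g f v : H} (hg : Good g f) (hv : NN g f v) : ∃ k, v = cst k := by
  by_contra hcon
  push Not at hcon
  obtain ⟨a, b, d, hd, z, hz, hzv⟩ := dens (isOpen_image hcon) ⟨0, zero_mem, rfl⟩
  have hS : ((d : H) * v - a) ^ 2 + (b : H) ^ 2 ∈ NNsub hg := by
    have hv' : v ∈ NNsub hg := hv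
    exact add_mem (pow_mem (sub_mem (mul_mem (intCast_mem _ _) hv') (intCast_mem _ _)) 2)
      (pow_mem (intCast_mem _ _) 2)
  have hU : Uz (((d : H) * v - a) ^ 2 + (b : H) ^ 2) := (show NN g f _ from hS).1.1
  have hdc : (d:ℂ) ≠ 0 := by exact_mod_cast hd
  have h0 : ((((d : H) * v - a) ^ 2 + (b : H) ^ 2 : H) : ℂ → ℂ) z = 0 := by
    have e1 : (((d : H) * v - a) ^ 2 + (b : H) ^ 2 : H) = ((d : H) * v - a) * ((d : H) * v - a) +
      (b : H) * b := by ring
    rw [e1]
    simp only [mul_app, sub_app, add_app, int_app]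
    have : (d:ℂ) * (v : ℂ → ℂ) z = a + b * Complex.I := by
      rw [hzv]; field_simp
    rw [this]
    linear_combination ((b:ℂ)^2) * Complex.I_sq
  rcases hU with h | h
  · obtain ⟨k, hk⟩ := const_of_root hd h
    exact hcon k hk
  · exact (isUnit_iff _).1 h z hz h0

theorem sqrt_neg_one {i : H} (hi : i * i + 1 = 0) : ∃ k, i = cst k := by
  have hf : (i - cst Complex.I) * (i + cst Complex.I) = 0 := by
    rw [← hi]
    refine ext' fun z hz => ?_
    simp only [mul_app, sub_app, add_app, cst_app _ hz, one_app]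
    linear_combination (-1 : ℂ) * Complex.I_sq
  rcases mul_eq_zero' hf with h1 | h1
  · exact ⟨Complex.I, sub_eq_zero.1 h1⟩
  · refine ⟨-Complex.I, ext' fun z hz => ?_⟩
    have := congrArg (fun x : H => (x : ℂ → ℂ) z) h1
    simp only [add_app, cst_app _ hz, zero_app] at this
    rw [cst_app _ hz]
    linear_combination this

theorem Cst_iff (c : H) : Cst c ↔ ∃ k, c = cst k := by
  constructor
  · intro h
    by_contra hcon
    push Not at hcon
    obtain ⟨a, b, d, hd, z, hz, hzv⟩ := dens (isOpen_image hcon) ⟨0, zero_mem, rfl⟩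
    have hdc : (d:ℂ) ≠ 0 := by exact_mod_cast hd
    have h1 := h g0 f0 good0 (cst a) (cst b) (cst d) (cst Complex.I) ((NN_iff _).2 ⟨a, rfl⟩)
      ((NN_iff _).2 ⟨b, rfl⟩) ((NN_iff _).2 ⟨d, rfl⟩) (by
        intro h0
        rw [← cst_zero] at h0
        exact hdc (cst_inj h0)) (by
        rw [← cst_one, cst_mul, cst_add, Complex.I_mul_I, ← cst_zero]; norm_num)
    have h2 : ((cst d * c - (cst a + cst Complex.I * cst b) : H) : ℂ → ℂ) z = 0 := by
      simp only [mul_app, sub_app, add_app, cst_app _ hz]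
      rw [hzv]; field_simp; ring
    rcases h1 with h1 | h1
    · refine hcon ((a + b * Complex.I) / d) (ext' fun w hw => ?_)
      have := congrArg (fun x : H => (x : ℂ → ℂ) w) h1
      simp only [mul_app, sub_app, add_app, cst_app _ hw, zero_app] at this
      rw [cst_app _ hw, eq_div_iff hdc]
      linear_combination this
    · exact (isUnit_iff _).1 h1 z hz h2
  · rintro ⟨k, rfl⟩ g f hg a b d i ha hb hd - hi
    obtain ⟨a', rfl⟩ := NN_const hg ha
    obtain ⟨b', rfl⟩ := NN_const hg hb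
    obtain ⟨d', rfl⟩ := NN_const hg hd
    obtain ⟨i', rfl⟩ := sqrt_neg_one hi
    rw [cst_mul, cst_mul, cst_add, cst_sub]
    exact Uz_cst _

theorem Cst_cst (k : ℂ) : Cst (cst k) := (Cst_iff _).2 ⟨k, rfl⟩

theorem Im_iff (φ : H) (k : ℂ) : Im φ (cst k) ↔ ∃ z ∈ ball (0:ℂ) 1, (φ : ℂ → ℂ) z = k := by
  unfold Im
  rw [not_isUnit_iff]
  constructor
  · rintro ⟨z, hz, h⟩
    rw [sub_app, cst_app _ hz] at h
    exact ⟨z, hz, sub_eq_zero.1 h⟩
  · rintro ⟨z, hz, h⟩
    exact ⟨z, hz, by rw [sub_app, cst_app _ hz, h, sub_self]⟩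

theorem Disc_iff (k : ℂ) : Disc (cst k) ↔ ‖k‖ < 1 := by
  constructor
  · rintro ⟨-, φ, hφ0, hmul, ⟨e, he, hee⟩, hk⟩
    obtain ⟨e, rfl⟩ := (Cst_iff _).1 he
    rw [Im_iff] at hk hee
    rw [not_isUnit_iff] at hφ0
    obtain ⟨z0, hz0, hφz0⟩ := hφ0
    by_cases hc : ∃ p, φ = cst p
    · obtain ⟨p, rfl⟩ := hc
      rw [cst_app _ hz0] at hφz0
      obtain ⟨z, hz, h⟩ := hk
      rw [cst_app _ hz, hφz0] at h
      rw [← h]; simp
    · push Not at hc
      have hop := isOpen_image hc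
      set Ω := (φ : ℂ → ℂ) '' ball (0:ℂ) 1 with hΩ
      have h0 : (0:ℂ) ∈ Ω := ⟨z0, hz0, hφz0⟩
      have hkΩ : k ∈ Ω := hk
      have hmulΩ : ∀ a ∈ Ω, ∀ b ∈ Ω, a * b ∈ Ω := by
        intro a ha b hb
        have := hmul (cst a) (cst b) (Cst_cst _) (Cst_cst _) ((Im_iff _ _).2 ha) ((Im_iff _ _).2 hb)
        rw [cst_mul, Im_iff] at this
        exact this
      by_contra hcon
      push Not at hcon
      -- a point of modulus bigger than one
      have hex : ∃ k' ∈ Ω, 1 < ‖k'‖ := by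
        have hcont : Continuous (fun t : ℝ => k * (1 + t)) := by fun_prop
        have h1 : (fun t : ℝ => k * (1 + t)) ⁻¹' Ω ∈ 𝓝 (0:ℝ) :=
          hcont.continuousAt (hop.mem_nhds (by simpa using hkΩ))
        obtain ⟨ε, hε, hεs⟩ := Metric.mem_nhds_iff.1 h1
        refine ⟨k * (1 + ((ε / 2 : ℝ) : ℂ)), hεs (by
          rw [mem_ball, dist_zero_right, Real.norm_eq_abs, abs_of_pos (by linarith)]; linarith), ?_⟩
        rw [norm_mul]
        have h2 : ‖(1 + ((ε / 2 : ℝ) : ℂ))‖ = 1 + ε / 2 := by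
          have : (1 + ((ε / 2 : ℝ) : ℂ)) = ((1 + ε / 2 : ℝ) : ℂ) := by push_cast; ring
          rw [this, Complex.norm_real, Real.norm_eq_abs, abs_of_pos (by linarith)]
        rw [h2]
        nlinarith
      obtain ⟨k', hk', hk'1⟩ := hex
      have hpow : ∀ n : ℕ, k' ^ (n + 1) ∈ Ω := by
        intro n
        induction n with
        | zero => simpa using hk'
        | succ n ih => rw [pow_succ]; exact hmulΩ _ ih _ hk'
      obtain ⟨δ, hδ, hδs⟩ := Metric.isOpen_iff.1 hop 0 h0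
      obtain ⟨n, hn⟩ := pow_unbounded_of_one_lt (‖e‖ / δ) hk'1
      have hk'0 : k' ≠ 0 := fun h => by rw [h, norm_zero] at hk'1; linarith
      have hpn : k' ^ (n + 1) ≠ 0 := pow_ne_zero _ hk'0
      apply hee
      have h3 : e / k' ^ (n + 1) ∈ Ω := by
        apply hδs
        rw [mem_ball, dist_zero_right, norm_div, norm_pow, div_lt_iff₀ (by positivity)]
        rw [div_lt_iff₀ hδ] at hn
        have h4 : ‖k'‖ ^ n ≤ ‖k'‖ ^ (n + 1) := pow_le_pow_right₀ hk'1.le (by omega)
        nlinarith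
      have h5 := hmulΩ _ h3 _ (hpow n)
      rw [div_mul_cancel₀ _ hpn] at h5
      exact h5
  · intro hk
    have hIm : ∀ a : ℂ, Im (lin 0) (cst a) ↔ ‖a‖ < 1 := by
      intro a
      rw [Im_iff]
      constructor
      · rintro ⟨z, hz, h⟩
        rw [lin_app _ hz, sub_zero] at h
        rw [← h]; simpa using hz
      · intro ha
        have ha' : a ∈ ball (0:ℂ) 1 := by simpa using ha
        exact ⟨a, ha', by rw [lin_app _ ha', sub_zero]⟩
    refine ⟨Cst_cst _, lin 0, (not_isUnit_iff _).2 ⟨0, zero_mem, by rw [lin_app _ zero_mem, sub_zero]⟩,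
      ?_, ⟨cst 1, Cst_cst _, ?_⟩, (hIm _).2 hk⟩
    · intro a b ha hb h1 h2
      obtain ⟨a, rfl⟩ := (Cst_iff _).1 ha
      obtain ⟨b, rfl⟩ := (Cst_iff _).1 hb
      rw [hIm] at h1 h2
      rw [cst_mul, hIm, norm_mul]
      have := norm_nonneg a; have := norm_nonneg b
      nlinarith
    · rw [hIm]; simp

theorem Lt_iff (a b : ℂ) : Lt (cst a) (cst b) ↔ ‖a‖ < ‖b‖ := by
  constructor
  · rintro ⟨hb, q, hq, h⟩
    obtain ⟨q, rfl⟩ := (Cst_iff _).1 hq.1
    rw [Disc_iff] at hq
    rw [cst_mul] at h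
    have h' := cst_inj h
    have hb' : b ≠ 0 := fun h0 => hb (by rw [h0, cst_zero])
    rw [h', norm_mul]
    have := norm_pos_iff.2 hb'
    nlinarith
  · intro h
    have hb' : b ≠ 0 := fun h0 => by
      rw [h0, norm_zero] at h
      linarith [norm_nonneg a]
    refine ⟨fun h0 => hb' (cst_inj (by rw [h0, cst_zero])), cst (a / b), (Disc_iff _).2 ?_, ?_⟩
    · rw [norm_div, div_lt_one (norm_pos_iff.2 hb')]; exact h
    · rw [cst_mul, div_mul_cancel₀ _ hb']

theorem Le_iff (a b : ℂ) : Le (cst a) (cst b) ↔ ‖a‖ ≤ ‖b‖ := by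
  unfold Le
  rw [Lt_iff, not_lt]

theorem geo_mem (K : ℂ) (n : ℕ) : Geo (cst K) (cst (2 ^ n)⁻¹) (cst (K ^ n)) := by
  intro F g₁ g₂ h0 hstep
  induction n with
  | zero => simpa [cst_one] using h0
  | succ n ih =>
    have h1 := hstep (cst (2 ^ (n + 1))⁻¹) (cst (K ^ n)) (Cst_cst _) (Cst_cst _) (by
      have e : ((2:ℂ) ^ (n + 1))⁻¹ + (2 ^ (n + 1))⁻¹ = (2 ^ n)⁻¹ := by
        rw [pow_succ]; field_simp; norm_num
      rw [cst_add, e]; exact ih)
    rw [cst_mul] at h1
    have e : K * K ^ n = K ^ (n + 1) := by ring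
    rwa [e] at h1

theorem geo_only {K : ℝ} (hK : 0 < K) {x y : ℂ} (h : Geo (cst K) (cst x) (cst y)) :
    ∃ n : ℕ, x = (2 ^ n)⁻¹ ∧ y = (K:ℂ) ^ n := by
  have hw : DifferentiableOn ℂ (fun z : ℂ => z / (1 - z)) (ball 0 1) := by
    refine differentiableOn_id.div (by fun_prop) fun z hz h => ?_
    rw [mem_ball_zero_iff] at hz
    have : z = 1 := (sub_eq_zero.1 h).symm
    rw [this, norm_one] at hz
    exact lt_irrefl _ hz
  have hF : DifferentiableOn ℂ (fun z : ℂ => Phi (z / (1 - z))) (ball 0 1) :=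
    Phi_diff.comp_differentiableOn hw
  have h1 : DifferentiableOn ℂ (fun z : ℂ => Complex.exp (-(Real.log 2) * (z / (1 - z)))) (ball 0 1) :=
    (hw.const_mul _).cexp
  have h2 : DifferentiableOn ℂ (fun z : ℂ => Complex.exp ((Real.log K) * (z / (1 - z)))) (ball 0 1) :=
    (hw.const_mul _).cexp
  have e1 : ∀ n : ℕ, Complex.exp (-(Real.log 2) * (n:ℂ)) = (2 ^ n)⁻¹ := by
    intro n
    have : (-(Real.log 2) * (n:ℂ) : ℂ) = ((-(n * Real.log 2) : ℝ) : ℂ) := by push_cast; ring
    rw [this, ← Complex.ofReal_exp, Real.exp_neg, Real.exp_nat_mul, Real.exp_log (by norm_num)]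
    push_cast; rfl
  have e2 : ∀ n : ℕ, Complex.exp ((Real.log K) * (n:ℂ)) = (K:ℂ) ^ n := by
    intro n
    have : ((Real.log K) * (n:ℂ) : ℂ) = ((n * Real.log K : ℝ) : ℂ) := by push_cast; ring
    rw [this, ← Complex.ofReal_exp, Real.exp_nat_mul, Real.exp_log hK]
    push_cast; rfl
  have hCZ : ∀ x y : ℂ, CZ3 (mk _ hF) (mk _ h1 - cst x) (mk _ h2 - cst y) ↔
      ∃ n : ℕ, x = (2 ^ n)⁻¹ ∧ y = (K:ℂ) ^ n := by
    intro x y
    rw [CZ3_iff]
    constructor
    · rintro ⟨z, hz, a1, a2, a3⟩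
      rw [mk_apply _ hz, Phi_eq_zero_iff] at a1
      obtain ⟨m, hm⟩ := a1
      rw [sub_app, mk_apply _ hz, cst_app _ hz, hm] at a2 a3
      have hz1 : ‖z‖ < 1 := by simpa using hz
      have hne : (1:ℂ) - z ≠ 0 := fun h0 => by
        have : z = 1 := (sub_eq_zero.1 h0).symm
        rw [this, norm_one] at hz1; exact lt_irrefl _ hz1
      have hm0 : 0 ≤ m := by
        by_contra hcon
        push Not at hcon
        have hm1 : (m:ℝ) ≤ -1 := by exact_mod_cast (by omega : m ≤ -1)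
        have hz2 : z * (1 + m) = m := by
          rw [div_eq_iff hne] at hm
          linear_combination hm
        have h3 : ‖z‖ * ‖(1 + m : ℂ)‖ = ‖(m:ℂ)‖ := by rw [← norm_mul, hz2]
        have h4 : ‖(1 + m : ℂ)‖ = -1 - m := by
          have : (1 + m : ℂ) = ((1 + m : ℝ) : ℂ) := by push_cast; rfl
          rw [this, Complex.norm_real, Real.norm_eq_abs, abs_of_nonpos (by linarith)]
          ring
        have h5 : ‖(m:ℂ)‖ = - m := by
          rw [Complex.norm_intCast, abs_of_nonpos (by linarith)]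
        rw [h4, h5] at h3
        nlinarith [norm_nonneg z]
      obtain ⟨n, rfl⟩ := Int.eq_ofNat_of_zero_le hm0
      rw [Int.cast_natCast] at a2 a3
      rw [e1] at a2
      rw [e2] at a3
      exact ⟨n, (sub_eq_zero.1 a2).symm, (sub_eq_zero.1 a3).symm⟩
    · rintro ⟨n, rfl, rfl⟩
      have hn0 : (0:ℝ) < 1 + n := by positivity
      have hnc : (1 + n : ℂ) ≠ 0 := by exact_mod_cast hn0.ne'
      have hz : ((n:ℂ) / (1 + n)) ∈ ball (0:ℂ) 1 := by
        rw [mem_ball_zero_iff, norm_div]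
        have : ‖(1 + n : ℂ)‖ = 1 + n := by
          have : (1 + n : ℂ) = ((1 + n : ℝ) : ℂ) := by push_cast; rfl
          rw [this, Complex.norm_real, Real.norm_eq_abs, abs_of_pos hn0]
        rw [this, Complex.norm_natCast, div_lt_one hn0]
        linarith
      have hwz : ((n:ℂ) / (1 + n)) / (1 - (n:ℂ) / (1 + n)) = n := by
        field_simp
        ring
      refine ⟨_, hz, ?_, ?_, ?_⟩
      · rw [mk_apply _ hz, hwz, Phi_eq_zero_iff]
        exact ⟨n, by push_cast; rfl⟩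
      · rw [sub_app, mk_apply _ hz, cst_app _ hz, hwz, e1, sub_self]
      · rw [sub_app, mk_apply _ hz, cst_app _ hz, hwz, e2, sub_self]
  have h3 := h (mk _ hF) (mk _ h1) (mk _ h2) (by
    rw [← cst_one]; exact (hCZ 1 1).2 ⟨0, by simp, by simp⟩) (by
    intro x' y' hx' hy' h4
    obtain ⟨x', rfl⟩ := (Cst_iff _).1 hx'
    obtain ⟨y', rfl⟩ := (Cst_iff _).1 hy'
    rw [cst_add] at h4
    obtain ⟨n, h5, h6⟩ := (hCZ _ _).1 h4
    rw [cst_mul]
    refine (hCZ _ _).2 ⟨n + 1, ?_, ?_⟩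
    · rw [pow_succ, mul_inv, ← h5]; ring
    · rw [h6, pow_succ]; ring)
  exact (hCZ x y).1 h3

end Pool.Agent.Q120.Adm
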