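import Mathlib

/-!
First-order definability over a commutative ring: a small kit of closure properties, the predicates
used for MP_5f3cbe_lc, and their definability in the language of rings.
-/

set_option autoImplicit false

open FirstOrder FirstOrder.Language

namespace Pool.Agent.Q120.Adm

section kit

variable {R : Type} [CommRing R] [FirstOrder.Ring.CompatibleRing R] {α : Type}

/-- `t` is given by a term of the language of rings. -/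
def Trm (t : (α → R) → R) : Prop :=
  ∃ τ : Language.ring.Term α, ∀ v : α → R, τ.realize v = t v

/-- `P` is given by a formula of the language of rings. -/
def Dfn (P : (α → R) → Prop) : Prop :=
  ∃ φ : Language.ring.Formula α, ∀ v : α → R, φ.Realize v ↔ P v

theorem Trm.var (a : α) : Trm (R := R) (fun v => v a) := ⟨Term.var a, fun _ => rfl⟩

theorem Trm.zero : Trm (R := R) (α := α) (fun _ => 0) := ⟨0, fun _ => by simp⟩

theorem Trm.one : Trm (R := R) (α := α) (fun _ => 1) := ⟨1, fun _ => by simp⟩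

theorem Trm.add {s t : (α → R) → R} (hs : Trm s) (ht : Trm t) : Trm (fun v => s v + t v) := by
  obtain ⟨σ, hσ⟩ := hs
  obtain ⟨τ, hτ⟩ := ht
  exact ⟨σ + τ, fun v => by simp [hσ, hτ]⟩

theorem Trm.mul {s t : (α → R) → R} (hs : Trm s) (ht : Trm t) : Trm (fun v => s v * t v) := by
  obtain ⟨σ, hσ⟩ := hs
  obtain ⟨τ, hτ⟩ := ht
  exact ⟨σ * τ, fun v => by simp [hσ, hτ]⟩

theorem Trm.neg {s : (α → R) → R} (hs : Trm s) : Trm (fun v => - s v) := by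
  obtain ⟨σ, hσ⟩ := hs
  exact ⟨-σ, fun v => by simp [hσ]⟩

theorem Trm.sub {s t : (α → R) → R} (hs : Trm s) (ht : Trm t) : Trm (fun v => s v - t v) := by
  simp only [sub_eq_add_neg]
  exact hs.add ht.neg

theorem Trm.w {s : (α → R) → R} (hs : Trm s) :
    Trm (fun v : α ⊕ Unit → R => s (fun a => v (Sum.inl a))) := by
  obtain ⟨σ, hσ⟩ := hs
  refine ⟨σ.relabel Sum.inl, fun v => ?_⟩
  rw [Term.realize_relabel, hσ]
  rfl

theorem Trm.n : Trm (fun v : α ⊕ Unit → R => v (Sum.inr ())) := Trm.var _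

theorem Dfn.eq {s t : (α → R) → R} (hs : Trm s) (ht : Trm t) : Dfn (fun v => s v = t v) := by
  obtain ⟨σ, hσ⟩ := hs
  obtain ⟨τ, hτ⟩ := ht
  refine ⟨Term.equal σ τ, fun v => ?_⟩
  rw [Formula.realize_equal, hσ, hτ]

theorem Dfn.not {P : (α → R) → Prop} (hP : Dfn P) : Dfn (fun v => ¬ P v) := by
  obtain ⟨φ, hφ⟩ := hP
  exact ⟨φ.not, fun v => by rw [Formula.realize_not, hφ]⟩

theorem Dfn.and {P Q : (α → R) → Prop} (hP : Dfn P) (hQ : Dfn Q) : Dfn (fun v => P v ∧ Q v) := by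
  obtain ⟨φ, hφ⟩ := hP
  obtain ⟨ψ, hψ⟩ := hQ
  exact ⟨φ ⊓ ψ, fun v => by rw [Formula.realize_inf, hφ, hψ]⟩

theorem Dfn.or {P Q : (α → R) → Prop} (hP : Dfn P) (hQ : Dfn Q) : Dfn (fun v => P v ∨ Q v) := by
  obtain ⟨φ, hφ⟩ := hP
  obtain ⟨ψ, hψ⟩ := hQ
  exact ⟨φ ⊔ ψ, fun v => by rw [Formula.realize_sup, hφ, hψ]⟩

theorem Dfn.imp {P Q : (α → R) → Prop} (hP : Dfn P) (hQ : Dfn Q) : Dfn (fun v => P v → Q v) := by
  obtain ⟨φ, hφ⟩ := hP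
  obtain ⟨ψ, hψ⟩ := hQ
  exact ⟨φ.imp ψ, fun v => by rw [Formula.realize_imp, hφ, hψ]⟩

theorem Dfn.congr {P Q : (α → R) → Prop} (hP : Dfn P) (h : ∀ v, P v ↔ Q v) : Dfn Q := by
  obtain ⟨φ, hφ⟩ := hP
  exact ⟨φ, fun v => (hφ v).trans (h v)⟩

theorem Dfn.ex {P : (α → R) → R → Prop}
    (hP : Dfn (fun v : α ⊕ Unit → R => P (fun a => v (Sum.inl a)) (v (Sum.inr ())))) :
    Dfn (fun v => ∃ x, P v x) := by
  obtain ⟨φ, hφ⟩ := hP
  refine ⟨φ.iExs Unit, fun v => ?_⟩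
  rw [Formula.realize_iExs]
  constructor
  · rintro ⟨i, hi⟩
    exact ⟨i (), (hφ _).1 hi⟩
  · rintro ⟨x, hx⟩
    exact ⟨fun _ => x, (hφ _).2 hx⟩

theorem Dfn.all {P : (α → R) → R → Prop}
    (hP : Dfn (fun v : α ⊕ Unit → R => P (fun a => v (Sum.inl a)) (v (Sum.inr ())))) :
    Dfn (fun v => ∀ x, P v x) := by
  obtain ⟨φ, hφ⟩ := hP
  refine ⟨φ.iAlls Unit, fun v => ?_⟩
  rw [Formula.realize_iAlls]
  constructor
  · intro h x
    exact (hφ _).1 (h fun _ => x)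
  · intro h i
    exact (hφ _).2 (h (i ()))

end kit

section preds

variable {R : Type} [CommRing R]

/-- zero or a unit -/
def Uz (x : R) : Prop := x = 0 ∨ IsUnit x

/-- the set attached to the parameters `g`, `f` -/
def NN (g f v : R) : Prop := (Uz v ∧ Uz (v - 1)) ∧ (g - v) ∣ f

/-- `NN g f` is a subring -/
def Good (g f : R) : Prop :=
  NN g f 1 ∧ ∀ a b, NN g f a → NN g f b → NN g f (a - b) ∧ NN g f (a * b)

/-- `c` is constant -/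
def Cst (c : R) : Prop :=
  ∀ g f, Good g f → ∀ a b d i, NN g f a → NN g f b → NN g f d → d ≠ 0 → i * i + 1 = 0 →
    Uz (d * c - (a + i * b))

/-- common zero of two elements -/
def CZ2 (x y : R) : Prop := ∃ h, ¬ IsUnit h ∧ h ∣ x ∧ h ∣ y

/-- common zero of three elements -/
def CZ3 (x y z : R) : Prop := ∃ h, ¬ IsUnit h ∧ h ∣ x ∧ h ∣ y ∧ h ∣ z

/-- the constant `c` is in the image of `φ` -/
def Im (φ c : R) : Prop := ¬ IsUnit (φ - c)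

/-- `|c| < 1` -/
def Disc (c : R) : Prop :=
  Cst c ∧ ∃ φ, ¬ IsUnit φ ∧ (∀ a b, Cst a → Cst b → Im φ a → Im φ b → Im φ (a * b)) ∧
    (∃ e, Cst e ∧ ¬ Im φ e) ∧ Im φ c

/-- `|a| < |b|` -/
def Lt (a b : R) : Prop := b ≠ 0 ∧ ∃ q, Disc q ∧ a = q * b

/-- `|a| ≤ |b|` -/
def Le (a b : R) : Prop := ¬ Lt b a

/-- `x = 2 ^ (-n)`, `y = K ^ n` for some `n` -/
def Geo (K x y : R) : Prop :=
  ∀ F g₁ g₂, CZ3 F (g₁ - 1) (g₂ - 1) →
    (∀ x' y', Cst x' → Cst y' → CZ3 F (g₁ - (x' + x')) (g₂ - y') → CZ3 F (g₁ - x') (g₂ - K * y')) →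
    CZ3 F (g₁ - x) (g₂ - y)

/-- the formula for functions which are not admissible -/
def NonAdm (f : R) : Prop :=
  ∃ φ, ¬ IsUnit φ ∧ (∀ c, Cst c → Im φ c → Disc c) ∧
    ∃ K, Cst K ∧ ∀ x y, Cst x → Cst y → Geo K x y →
      ∃ g, IsUnit g ∧
        (∀ c e e', Cst c → Cst e → Cst e' → Le c (1 - x) → CZ3 (φ - c) (f - e) (g - e') →
          Le e e' ∧ Le 1 e') ∧
        (∀ e, Cst e → CZ2 φ (g - e) → Le e (K * y))

variable [FirstOrder.Ring.CompatibleRing R] {α : Type}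

theorem D_dvd {s t : (α → R) → R} (hs : Trm s) (ht : Trm t) : Dfn (fun v => s v ∣ t v) :=
  (Dfn.ex (P := fun v x => t v = s v * x) (Dfn.eq ht.w (hs.w.mul Trm.n))).congr
    fun _ => Iff.rfl

theorem D_unit {s : (α → R) → R} (hs : Trm s) : Dfn (fun v => IsUnit (s v)) :=
  (D_dvd hs Trm.one).congr fun _ => isUnit_iff_dvd_one.symm

theorem D_Uz {s : (α → R) → R} (hs : Trm s) : Dfn (fun v => Uz (s v)) :=
  (Dfn.eq hs Trm.zero).or (D_unit hs)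

theorem D_NN {g f s : (α → R) → R} (hg : Trm g) (hf : Trm f) (hs : Trm s) :
    Dfn (fun v => NN (g v) (f v) (s v)) :=
  ((D_Uz hs).and (D_Uz (hs.sub Trm.one))).and (D_dvd (hg.sub hs) hf)

theorem D_Good {g f : (α → R) → R} (hg : Trm g) (hf : Trm f) :
    Dfn (fun v => Good (g v) (f v)) := by
  refine (D_NN hg hf Trm.one).and (Dfn.all (Dfn.all ?_))
  exact (D_NN hg.w.w hf.w.w Trm.n.w).imp ((D_NN hg.w.w hf.w.w Trm.n).imp
    ((D_NN hg.w.w hf.w.w (Trm.n.w.sub Trm.n)).and (D_NN hg.w.w hf.w.w (Trm.n.w.mul Trm.n))))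

theorem D_Cst {c : (α → R) → R} (hc : Trm c) : Dfn (fun v => Cst (c v)) := by
  refine Dfn.all (Dfn.all ((D_Good Trm.n.w Trm.n).imp (Dfn.all (Dfn.all (Dfn.all (Dfn.all ?_))))))
  have hg : Trm (R := R) (fun v : (((((α ⊕ Unit) ⊕ Unit) ⊕ Unit) ⊕ Unit) ⊕ Unit) ⊕ Unit → R =>
    v (Sum.inl (Sum.inl (Sum.inl (Sum.inl (Sum.inl (Sum.inr ()))))))) := Trm.var _
  have hf : Trm (R := R) (fun v : (((((α ⊕ Unit) ⊕ Unit) ⊕ Unit) ⊕ Unit) ⊕ Unit) ⊕ Unit → R =>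
    v (Sum.inl (Sum.inl (Sum.inl (Sum.inl (Sum.inr ())))))) := Trm.var _
  have ha : Trm (R := R) (fun v : (((((α ⊕ Unit) ⊕ Unit) ⊕ Unit) ⊕ Unit) ⊕ Unit) ⊕ Unit → R =>
    v (Sum.inl (Sum.inl (Sum.inl (Sum.inr ()))))) := Trm.var _
  have hb : Trm (R := R) (fun v : (((((α ⊕ Unit) ⊕ Unit) ⊕ Unit) ⊕ Unit) ⊕ Unit) ⊕ Unit → R =>
    v (Sum.inl (Sum.inl (Sum.inr ())))) := Trm.var _
  have hd : Trm (R := R) (fun v : (((((α ⊕ Unit) ⊕ Unit) ⊕ Unit) ⊕ Unit) ⊕ Unit) ⊕ Unit → R =>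
    v (Sum.inl (Sum.inr ()))) := Trm.var _
  have hi : Trm (R := R) (fun v : (((((α ⊕ Unit) ⊕ Unit) ⊕ Unit) ⊕ Unit) ⊕ Unit) ⊕ Unit → R =>
    v (Sum.inr ())) := Trm.var _
  exact (D_NN hg hf ha).imp ((D_NN hg hf hb).imp ((D_NN hg hf hd).imp ((Dfn.eq hd Trm.zero).not.imp
    ((Dfn.eq ((hi.mul hi).add Trm.one) Trm.zero).imp
      (D_Uz ((hd.mul hc.w.w.w.w.w.w).sub (ha.add (hi.mul hb))))))))

theorem D_CZ2 {s t : (α → R) → R} (hs : Trm s) (ht : Trm t) : Dfn (fun v => CZ2 (s v) (t v)) :=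
  Dfn.ex ((D_unit Trm.n).not.and ((D_dvd Trm.n hs.w).and (D_dvd Trm.n ht.w)))

theorem D_CZ3 {s t u : (α → R) → R} (hs : Trm s) (ht : Trm t) (hu : Trm u) :
    Dfn (fun v => CZ3 (s v) (t v) (u v)) :=
  Dfn.ex ((D_unit Trm.n).not.and ((D_dvd Trm.n hs.w).and
    ((D_dvd Trm.n ht.w).and (D_dvd Trm.n hu.w))))

theorem D_Im {s t : (α → R) → R} (hs : Trm s) (ht : Trm t) : Dfn (fun v => Im (s v) (t v)) :=
  (D_unit (hs.sub ht)).not

theorem D_Disc {c : (α → R) → R} (hc : Trm c) : Dfn (fun v => Disc (c v)) := by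
  refine (D_Cst hc).and (Dfn.ex ((D_unit Trm.n).not.and (Dfn.and ?_ (Dfn.and ?_ ?_))))
  · refine Dfn.all (Dfn.all ?_)
    exact (D_Cst Trm.n.w).imp ((D_Cst Trm.n).imp ((D_Im Trm.n.w.w Trm.n.w).imp
      ((D_Im Trm.n.w.w Trm.n).imp (D_Im Trm.n.w.w (Trm.n.w.mul Trm.n)))))
  · exact Dfn.ex ((D_Cst Trm.n).and (D_Im Trm.n.w Trm.n).not)
  · exact D_Im Trm.n hc.w

theorem D_Lt {s t : (α → R) → R} (hs : Trm s) (ht : Trm t) : Dfn (fun v => Lt (s v) (t v)) :=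
  (Dfn.eq ht Trm.zero).not.and (Dfn.ex ((D_Disc Trm.n).and (Dfn.eq hs.w (Trm.n.mul ht.w))))

theorem D_Le {s t : (α → R) → R} (hs : Trm s) (ht : Trm t) : Dfn (fun v => Le (s v) (t v)) :=
  (D_Lt ht hs).not

theorem D_Geo {K x y : (α → R) → R} (hK : Trm K) (hx : Trm x) (hy : Trm y) :
    Dfn (fun v => Geo (K v) (x v) (y v)) := by
  refine Dfn.all (Dfn.all (Dfn.all (Dfn.imp ?_ (Dfn.imp ?_ ?_))))
  · exact D_CZ3 Trm.n.w.w (Trm.n.w.sub Trm.one) (Trm.n.sub Trm.one)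
  · refine Dfn.all (Dfn.all ?_)
    exact (D_Cst Trm.n.w).imp ((D_Cst Trm.n).imp ((D_CZ3 Trm.n.w.w.w.w
      (Trm.n.w.w.w.sub (Trm.n.w.add Trm.n.w)) (Trm.n.w.w.sub Trm.n)).imp
      (D_CZ3 Trm.n.w.w.w.w (Trm.n.w.w.w.sub Trm.n.w)
        (Trm.n.w.w.sub (hK.w.w.w.w.w.mul Trm.n)))))
  · exact D_CZ3 Trm.n.w.w (Trm.n.w.sub hx.w.w.w) (Trm.n.sub hy.w.w.w)

theorem D_NonAdm {f : (α → R) → R} (hf : Trm f) : Dfn (fun v => NonAdm (f v)) := by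
  refine Dfn.ex ((D_unit Trm.n).not.and (Dfn.and ?_ (Dfn.ex (Dfn.and (D_Cst Trm.n)
    (Dfn.all (Dfn.all ((D_Cst Trm.n.w).imp ((D_Cst Trm.n).imp
      ((D_Geo Trm.n.w.w Trm.n.w Trm.n).imp (Dfn.ex ((D_unit Trm.n).and (Dfn.and ?_ ?_))))))))))))
  · exact Dfn.all ((D_Cst Trm.n).imp ((D_Im Trm.n.w Trm.n).imp (D_Disc Trm.n)))
  · refine Dfn.all (Dfn.all (Dfn.all ((D_Cst Trm.n.w.w).imp ((D_Cst Trm.n.w).imp
      ((D_Cst Trm.n).imp (Dfn.imp ?_ (Dfn.imp ?_ ?_)))))))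
    · exact D_Le Trm.n.w.w (Trm.one.sub Trm.n.w.w.w.w.w)
    · exact D_CZ3 (Trm.n.w.w.w.w.w.w.w.sub Trm.n.w.w) (hf.w.w.w.w.w.w.w.w.sub Trm.n.w)
        (Trm.n.w.w.w.sub Trm.n)
    · exact (D_Le Trm.n.w Trm.n).and (D_Le Trm.one Trm.n)
  · exact Dfn.all ((D_Cst Trm.n).imp ((D_CZ2 Trm.n.w.w.w.w.w (Trm.n.w.sub Trm.n)).imp
      (D_Le Trm.n (Trm.n.w.w.w.w.mul Trm.n.w.w))))

end preds

/-- `NonAdm` is given by a formula in one variable without parameters. -/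
theorem exists_formula (R : Type) [CommRing R] [FirstOrder.Ring.CompatibleRing R] :
    ∃ φ : Language.ring.Formula (Fin 1), ∀ f : R, φ.Realize (fun _ => f) ↔ ¬ NonAdm f := by
  obtain ⟨φ, hφ⟩ := (D_NonAdm (R := R) (Trm.var (α := Fin 1) 0)).not
  exact ⟨φ, fun f => hφ _⟩

end Pool.Agent.Q120.Adm
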