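import Pool.Agent.Lev.J_schottky

/-!
Growth of functions omitting `0` and `1`, and an elementary comparison of growth.
-/

set_option autoImplicit false

open Metric Set Topology Filter

namespace Pool.Agent.Q120.Adm

open Pool.Agent.Lev.J_schottky in
/-- growth of functions in the disc omitting two values -/
theorem growth {v : ℂ → ℂ} (hv : DifferentiableOn ℂ v (ball 0 1))
    (h0 : ∀ z ∈ ball (0:ℂ) 1, v z ≠ 0) (h1 : ∀ z ∈ ball (0:ℂ) 1, v z ≠ 1) :
    ∃ M : ℝ, ∀ z ∈ ball (0:ℂ) 1,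
      ‖v z‖ ≤ Real.exp (Real.pi * Real.exp (Real.pi * (M + 192 / (1 - ‖z‖)))) := by
  set f : ℂ → ℂ := fun z => 2 * v z - 1 with hf
  have hfd : DifferentiableOn ℂ f (ball 0 1) := (hv.const_mul 2).sub_const 1
  have hf1 : ∀ z ∈ ball (0:ℂ) 1, f z ≠ 1 := fun z hz h => h1 z hz (by
    rw [hf] at h; linear_combination h / 2)
  have hf2 : ∀ z ∈ ball (0:ℂ) 1, f z ≠ -1 := fun z hz h => h0 z hz (by
    rw [hf] at h; linear_combination h / 2)
  obtain ⟨F, hF, hF', -⟩ := exists_cos_ctrl hfd hf1 hf2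
  have hFint : ∀ z ∈ ball (0:ℂ) 1, ∀ n : ℤ, F z ≠ n := by
    intro z hz n h
    have h3 := hF' z hz
    obtain ⟨ε, hε, he⟩ := cosint n
    rw [h, mul_comm, he] at h3
    rcases hε with rfl | rfl
    · exact hf1 z hz (by rw [← h3]; simp)
    · exact hf2 z hz (by rw [← h3]; simp)
  obtain ⟨g, hg, hg', -⟩ := exists_cos_ctrl hF (fun z hz => by simpa using hFint z hz 1)
    (fun z hz => by simpa using hFint z hz (-1))
  have hom : ∀ v : ℂ, ∃ w, dist w v < 2 ∧ ∀ z ∈ ball (0:ℂ) 1, g z ≠ w := by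
    intro v
    obtain ⟨w, hw, n, hn⟩ := net v
    refine ⟨w, hw, fun z hz h => ?_⟩
    apply hFint z hz n
    rw [← hg' z hz, h, hn]
  refine ⟨‖g 0‖, fun z hz => ?_⟩
  have hb := bloch hg two_pos hom hz
  have hgz : ‖g z‖ ≤ ‖g 0‖ + 192 / (1 - ‖z‖) := by
    have h4 : ‖g z‖ ≤ ‖g z - g 0‖ + ‖g 0‖ := by simpa using norm_add_le (g z - g 0) (g 0)
    have : (96:ℝ) * 2 = 192 := by norm_num
    rw [this] at hb
    linarith
  have hfz : ‖f z‖ ≤ Real.exp (Real.pi * Real.exp (Real.pi * (‖g 0‖ + 192 / (1 - ‖z‖)))) := by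
    rw [← hF' z hz]
    refine (norm_cos_le _).trans (Real.exp_le_exp.2 ?_)
    rw [norm_mul, Complex.norm_real, Real.norm_eq_abs, abs_of_pos Real.pi_pos]
    refine mul_le_mul_of_nonneg_left ?_ Real.pi_pos.le
    rw [← hg' z hz]
    refine (norm_cos_le _).trans (Real.exp_le_exp.2 ?_)
    rw [norm_mul, Complex.norm_real, Real.norm_eq_abs, abs_of_pos Real.pi_pos]
    exact mul_le_mul_of_nonneg_left hgz Real.pi_pos.le
  have hone : 1 ≤ Real.exp (Real.pi * Real.exp (Real.pi * (‖g 0‖ + 192 / (1 - ‖z‖)))) :=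
    Real.one_le_exp (by positivity)
  have h5 : ‖2 * v z‖ ≤ ‖f z‖ + ‖(1:ℂ)‖ := by
    have : 2 * v z = f z + 1 := by rw [hf]; ring
    rw [this]; exact norm_add_le _ _
  rw [norm_mul, norm_one, Complex.norm_ofNat] at h5
  linarith

theorem big (A B C : ℝ) : ∃ X₀ : ℝ, 0 ≤ X₀ ∧ ∀ X, X₀ ≤ X →
    C * (X + 3) * (Real.exp (Real.pi * Real.exp (A + B * X)) + 1) + C <
      Real.exp (Real.exp (Real.exp X)) := by
  set D := |A| + Real.log (5 * Real.pi) with hD
  have hlog : 0 ≤ Real.log (5 * Real.pi) := Real.log_nonneg (by nlinarith [Real.pi_gt_three])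
  have hD0 : 0 ≤ D := by positivity
  refine ⟨2 * (|B| + 1 + D) + |C| + 1, by positivity, fun X hX => ?_⟩
  have hX1 : 1 ≤ X := by
    have := abs_nonneg B; have := abs_nonneg C; linarith
  have hXC : |C| ≤ X := by
    have := abs_nonneg B; linarith
  have hXB : 2 * (|B| + 1 + D) ≤ X := by
    have := abs_nonneg C; linarith
  set q := Real.exp (|A| + (|B| + 1) * X) with hq
  set Q := Real.exp (Real.pi * q) with hQ
  have hle : Real.exp (Real.pi * Real.exp (A + B * X)) ≤ Q := by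
    apply Real.exp_le_exp.2
    refine mul_le_mul_of_nonneg_left (Real.exp_le_exp.2 ?_) Real.pi_pos.le
    have h1 := le_abs_self A
    have h2 : B * X ≤ |B| * X := mul_le_mul_of_nonneg_right (le_abs_self B) (by linarith)
    nlinarith
  have hexp : (|B| + 1) * X + D ≤ Real.exp X := by
    have h1 := Real.quadratic_le_exp_of_nonneg (x := X) (by linarith)
    nlinarith [abs_nonneg B]
  have hQ5 : Q ^ 5 ≤ Real.exp (Real.exp (Real.exp X)) := by
    rw [hQ, ← Real.exp_nat_mul]
    apply Real.exp_le_exp.2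
    have h1 : ((5:ℕ):ℝ) * (Real.pi * q) = Real.exp (Real.log (5 * Real.pi) + (|A| + (|B| + 1) * X)) := by
      rw [Real.exp_add, Real.exp_log (by positivity), hq]
      push_cast; ring
    rw [h1]
    apply Real.exp_le_exp.2
    linarith
  have hqX : X + 1 ≤ q := by
    have h1 := Real.add_one_le_exp (|A| + (|B| + 1) * X)
    have : X ≤ (|B| + 1) * X := by nlinarith [abs_nonneg B]
    have := abs_nonneg A
    linarith
  have hQq : Real.pi * q + 1 ≤ Q := Real.add_one_le_exp _
  have hpi := Real.pi_gt_three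
  have hQX : X + 3 ≤ Q := by nlinarith
  have hQ4 : 4 ≤ Q := by nlinarith
  have hQC : |C| ≤ Q := by nlinarith
  have hC := le_abs_self C
  have hCn := abs_nonneg C
  have hEn : 0 < Real.exp (Real.pi * Real.exp (A + B * X)) := Real.exp_pos _
  calc C * (X + 3) * (Real.exp (Real.pi * Real.exp (A + B * X)) + 1) + C
      ≤ |C| * (X + 3) * (Real.exp (Real.pi * Real.exp (A + B * X)) + 1) + |C| := by
        have h1 : C * (X + 3) ≤ |C| * (X + 3) := mul_le_mul_of_nonneg_right hC (by linarith)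
        have h2 := mul_le_mul_of_nonneg_right h1
          (show 0 ≤ Real.exp (Real.pi * Real.exp (A + B * X)) + 1 by linarith)
        linarith
    _ ≤ Q * Q * (Q + 1) + Q := by
        have h1 : |C| * (X + 3) ≤ Q * Q := mul_le_mul hQC hQX (by linarith) (by linarith)
        have h2 : |C| * (X + 3) * (Real.exp (Real.pi * Real.exp (A + B * X)) + 1) ≤ Q * Q * (Q + 1) :=
          mul_le_mul h1 (by linarith) (by linarith) (by positivity)
        linarith
    _ < Q ^ 5 := by
        have h3 : 64 ≤ Q ^ 3 := by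
          have := pow_le_pow_left₀ (by norm_num) hQ4 3
          norm_num at this
          exact this
        have h2 : 16 ≤ Q ^ 2 := by nlinarith
        have e1 : Q * Q * (Q + 1) + Q = Q ^ 3 + Q ^ 2 + Q := by ring
        have e2 : Q ^ 5 = Q ^ 3 * Q ^ 2 := by ring
        rw [e1, e2]
        nlinarith
    _ ≤ _ := hQ5

end Pool.Agent.Q120.Adm
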