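import Pool.Agent.Q120.Adm.Fo

/-!
The ring of holomorphic functions on the unit disc: units, divisibility, common zeros.
-/

set_option autoImplicit false

open Metric Set Topology

namespace Pool.Agent.Q120.Adm

/-- the generating set of the frozen statement -/
abbrev SS : Set (ℂ → ℂ) :=
  {g : ℂ → ℂ | DifferentiableOn ℂ g (Metric.ball (0:ℂ) 1) ∧ ∀ z ∉ Metric.ball (0:ℂ) 1, g z = g 0}

/-- the ring of the frozen statement -/
abbrev H : Type := ↥(Subring.closure SS)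

/-- `SS` is the carrier of a subring -/
def HD : Subring (ℂ → ℂ) where
  carrier := SS
  mul_mem' := by
    rintro a b ⟨ha, ha'⟩ ⟨hb, hb'⟩
    refine ⟨ha.mul hb, fun z hz => ?_⟩
    simp only [Pi.mul_apply]
    rw [ha' z hz, hb' z hz]
  one_mem' := ⟨differentiableOn_const _, fun _ _ => rfl⟩
  add_mem' := by
    rintro a b ⟨ha, ha'⟩ ⟨hb, hb'⟩
    refine ⟨ha.add hb, fun z hz => ?_⟩
    simp only [Pi.add_apply]
    rw [ha' z hz, hb' z hz]
  zero_mem' := ⟨differentiableOn_const _, fun _ _ => rfl⟩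
  neg_mem' := by
    rintro a ⟨ha, ha'⟩
    refine ⟨ha.neg, fun z hz => ?_⟩
    simp only [Pi.neg_apply]
    rw [ha' z hz]

theorem mem_SS (f : H) : (f : ℂ → ℂ) ∈ SS :=
  (Subring.closure_le (s := SS) (t := HD)).2 (fun _ h => h) f.2

theorem diff (f : H) : DifferentiableOn ℂ (f : ℂ → ℂ) (ball 0 1) := (mem_SS f).1

theorem zero_mem : (0:ℂ) ∈ ball (0:ℂ) 1 := mem_ball_self one_pos

open Classical in
/-- the element of the ring given by a function holomorphic in the disc -/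
noncomputable def mk (h : ℂ → ℂ) (hd : DifferentiableOn ℂ h (ball 0 1)) : H :=
  ⟨fun z => if z ∈ ball (0:ℂ) 1 then h z else h 0, Subring.subset_closure (by
    refine ⟨hd.congr fun z hz => if_pos hz, fun z hz => ?_⟩
    show (if z ∈ ball (0:ℂ) 1 then h z else h 0) = if (0:ℂ) ∈ ball (0:ℂ) 1 then h 0 else h 0
    rw [if_neg hz, if_pos zero_mem])⟩

theorem mk_apply {h : ℂ → ℂ} (hd : DifferentiableOn ℂ h (ball 0 1)) {z : ℂ} (hz : z ∈ ball (0:ℂ) 1) :
    (mk h hd : ℂ → ℂ) z = h z := if_pos hz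

theorem ext' {f g : H} (h : ∀ z ∈ ball (0:ℂ) 1, (f : ℂ → ℂ) z = (g : ℂ → ℂ) z) : f = g := by
  apply Subtype.ext
  funext z
  by_cases hz : z ∈ ball (0:ℂ) 1
  · exact h z hz
  · rw [(mem_SS f).2 z hz, (mem_SS g).2 z hz]
    exact h 0 zero_mem

theorem add_app (f g : H) (z : ℂ) : ((f + g : H) : ℂ → ℂ) z = (f : ℂ → ℂ) z + (g : ℂ → ℂ) z := rfl
theorem mul_app (f g : H) (z : ℂ) : ((f * g : H) : ℂ → ℂ) z = (f : ℂ → ℂ) z * (g : ℂ → ℂ) z := rfl
theorem sub_app (f g : H) (z : ℂ) : ((f - g : H) : ℂ → ℂ) z = (f : ℂ → ℂ) z - (g : ℂ → ℂ) z := rfl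
theorem one_app (z : ℂ) : ((1 : H) : ℂ → ℂ) z = 1 := rfl
theorem zero_app (z : ℂ) : ((0 : H) : ℂ → ℂ) z = 0 := rfl

theorem isUnit_iff (f : H) : IsUnit f ↔ ∀ z ∈ ball (0:ℂ) 1, (f : ℂ → ℂ) z ≠ 0 := by
  constructor
  · intro hf z hz h0
    obtain ⟨g, hg⟩ := isUnit_iff_exists_inv.1 hf
    have := congrArg (fun x : H => (x : ℂ → ℂ) z) hg
    simp only [mul_app, one_app, h0, zero_mul] at this
    exact zero_ne_one this
  · intro hf
    refine isUnit_iff_exists_inv.2 ⟨mk (fun z => ((f : ℂ → ℂ) z)⁻¹) ((diff f).inv hf), ?_⟩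
    refine ext' fun z hz => ?_
    rw [mul_app, mk_apply _ hz, one_app]
    exact mul_inv_cancel₀ (hf z hz)

theorem not_isUnit_iff (f : H) : ¬ IsUnit f ↔ ∃ z ∈ ball (0:ℂ) 1, (f : ℂ → ℂ) z = 0 := by
  rw [isUnit_iff]
  push Not
  rfl

/-- constants -/
noncomputable def cst (k : ℂ) : H := mk (fun _ => k) (differentiableOn_const _)

theorem cst_app (k : ℂ) {z : ℂ} (hz : z ∈ ball (0:ℂ) 1) : (cst k : ℂ → ℂ) z = k := mk_apply _ hz

/-- the coordinate minus a constant -/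
noncomputable def lin (a : ℂ) : H := mk (fun z => z - a) (by fun_prop)

theorem lin_app (a : ℂ) {z : ℂ} (hz : z ∈ ball (0:ℂ) 1) : (lin a : ℂ → ℂ) z = z - a := mk_apply _ hz

theorem lin_dvd {a : ℂ} (ha : a ∈ ball (0:ℂ) 1) {f : H} (hf : (f : ℂ → ℂ) a = 0) : lin a ∣ f := by
  have hd : DifferentiableOn ℂ (dslope (f : ℂ → ℂ) a) (ball 0 1) :=
    (Complex.differentiableOn_dslope (isOpen_ball.mem_nhds ha)).2 (diff f)
  refine ⟨mk _ hd, ext' fun z hz => ?_⟩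
  rw [mul_app, lin_app _ hz, mk_apply _ hz]
  have := sub_smul_dslope (f : ℂ → ℂ) a z
  rw [smul_eq_mul, hf, sub_zero] at this
  exact this.symm

theorem app_of_dvd {f g : H} (h : f ∣ g) {z : ℂ} (hf : (f : ℂ → ℂ) z = 0) : (g : ℂ → ℂ) z = 0 := by
  obtain ⟨k, rfl⟩ := h
  rw [mul_app, hf, zero_mul]

theorem CZ3_iff (x y w : H) : CZ3 x y w ↔ ∃ a ∈ ball (0:ℂ) 1, (x : ℂ → ℂ) a = 0 ∧
    (y : ℂ → ℂ) a = 0 ∧ (w : ℂ → ℂ) a = 0 := by
  constructor
  · rintro ⟨h, hu, hx, hy, hw⟩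
    obtain ⟨a, ha, h0⟩ := (not_isUnit_iff h).1 hu
    exact ⟨a, ha, app_of_dvd hx h0, app_of_dvd hy h0, app_of_dvd hw h0⟩
  · rintro ⟨a, ha, hx, hy, hw⟩
    refine ⟨lin a, (not_isUnit_iff _).2 ⟨a, ha, by rw [lin_app _ ha, sub_self]⟩,
      lin_dvd ha hx, lin_dvd ha hy, lin_dvd ha hw⟩

theorem CZ2_iff (x y : H) : CZ2 x y ↔ ∃ a ∈ ball (0:ℂ) 1, (x : ℂ → ℂ) a = 0 ∧
    (y : ℂ → ℂ) a = 0 := by
  constructor
  · rintro ⟨h, hu, hx, hy⟩
    obtain ⟨a, ha, h0⟩ := (not_isUnit_iff h).1 hu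
    exact ⟨a, ha, app_of_dvd hx h0, app_of_dvd hy h0⟩
  · rintro ⟨a, ha, hx, hy⟩
    exact ⟨lin a, (not_isUnit_iff _).2 ⟨a, ha, by rw [lin_app _ ha, sub_self]⟩,
      lin_dvd ha hx, lin_dvd ha hy⟩

/-- the ring has no zero divisors -/
theorem mul_eq_zero' {f g : H} (h : f * g = 0) : f = 0 ∨ g = 0 := by
  by_contra hcon
  push Not at hcon
  obtain ⟨hf, hg⟩ := hcon
  have hA : AnalyticOnNhd ℂ (f : ℂ → ℂ) (ball 0 1) := (diff f).analyticOnNhd isOpen_ball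
  have hB : AnalyticOnNhd ℂ (g : ℂ → ℂ) (ball 0 1) := (diff g).analyticOnNhd isOpen_ball
  have hpre : IsPreconnected (ball (0:ℂ) 1) := (convex_ball _ _).isPreconnected
  rcases (hA 0 zero_mem).eventually_eq_zero_or_eventually_ne_zero with h1 | h1
  · refine hf (ext' fun z hz => ?_)
    rw [zero_app]
    exact hA.eqOn_zero_of_preconnected_of_eventuallyEq_zero hpre zero_mem h1 hz
  · rcases (hB 0 zero_mem).eventually_eq_zero_or_eventually_ne_zero with h2 | h2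
    · refine hg (ext' fun z hz => ?_)
      rw [zero_app]
      exact hB.eqOn_zero_of_preconnected_of_eventuallyEq_zero hpre zero_mem h2 hz
    · obtain ⟨z, hz1, hz2⟩ := (h1.and h2).exists
      have := congrArg (fun x : H => (x : ℂ → ℂ) z) h
      simp only [mul_app, zero_app] at this
      exact (mul_ne_zero hz1 hz2) this

/-- a non-constant element has open image -/
theorem isOpen_image {f : H} (hf : ∀ k, f ≠ cst k) :
    IsOpen ((f : ℂ → ℂ) '' ball (0:ℂ) 1) := by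
  have hA : AnalyticOnNhd ℂ (f : ℂ → ℂ) (ball 0 1) := (diff f).analyticOnNhd isOpen_ball
  rcases hA.is_constant_or_isOpen (convex_ball _ _).isPreconnected with ⟨w, hw⟩ | h
  · exact absurd (ext' fun z hz => by rw [hw z hz, cst_app _ hz]) (hf w)
  · exact h _ subset_rfl isOpen_ball

end Pool.Agent.Q120.Adm
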