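import Pool.Agent.Q120.Adm.Cells
import Pool.Agent.Q120.Adm.Ring

/-!
The integers are definable with parameters in the ring of holomorphic functions on the disc.
-/

set_option autoImplicit false

open Metric Set Topology Filter

namespace Pool.Agent.Q120.Adm

/-- Jensen's inequality for finite sets of zeros (compare `Pool.Agent.W337.SD.jcount0`) -/
theorem jcard {f : ℂ → ℂ} {c : ℂ} {r R M : ℝ} (hf : AnalyticOnNhd ℂ f (closedBall c R))
    (hr : 0 < r) (hrR : r < R)
    (hM1 : 1 ≤ M) (hc : f c ≠ 0) (hM : ∀ z, ‖z - c‖ ≤ R → ‖f z‖ ≤ M) (S : Finset ℂ)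
    (hS : ∀ s ∈ S, ‖s - c‖ ≤ r) (hS0 : ∀ s ∈ S, f s = 0) :
    (S.card : ℝ) ≤ Real.log (M / ‖f c‖) / Real.log (R / r) := by
  classical
  have hR : 0 < R := hr.trans hrR
  have habs : |R| = R := abs_of_pos hR
  have habr : |r| = r := abs_of_pos hr
  have hfr : AnalyticOnNhd ℂ f (closedBall c r) := hf.mono (closedBall_subset_closedBall hrR.le)
  have h1 := AnalyticOnNhd.sum_divisor_le (c := c) (r := r) (R := R) (M := M) (f := f)
    (by rw [habr]; exact hr) (by rw [habr, habs]; exact hrR) hM1 (by rw [habs]; exact hf) hc (by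
      intro z hz
      rw [habs, mem_sphere_iff_norm] at hz
      exact hM z hz.le)
  rw [habr] at h1
  refine le_trans ?_ h1
  have hK : IsPreconnected (closedBall c r) := (convex_closedBall c r).isPreconnected
  have hcr : c ∈ closedBall c r := mem_closedBall_self hr.le
  have hdiv : ∀ u ∈ closedBall c r, MeromorphicOn.divisor f (closedBall c r) u =
      (analyticOrderNatAt f u : ℤ) := by
    intro u hu
    rw [MeromorphicOn.AnalyticOnNhd.divisor_apply hfr hu]
    unfold analyticOrderNatAt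
    cases h : analyticOrderAt f u with
    | top => simp
    | coe n => simp
  have hfin : (MeromorphicOn.divisor f (closedBall c r)).support.Finite :=
    (MeromorphicOn.divisor f (closedBall c r)).finiteSupport (isCompact_closedBall c r)
  rw [finsum_eq_sum_of_support_subset (s := S ∪ hfin.toFinset)]
  · push_cast
    have h2 : (S.card : ℝ) ≤
        ∑ s ∈ S, ((MeromorphicOn.divisor f (closedBall c r) s : ℤ) : ℝ) := by
      rw [Finset.card_eq_sum_ones, Nat.cast_sum]
      refine Finset.sum_le_sum fun s hs => ?_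
      have hsb : s ∈ closedBall c r := by rw [mem_closedBall_iff_norm]; exact hS s hs
      rw [hdiv s hsb]
      have h3 : analyticOrderAt f s ≠ ⊤ := by
        refine hfr.analyticOrderAt_ne_top_of_isPreconnected hK hcr hsb ?_
        rw [(hfr c hcr).analyticOrderAt_eq_zero.mpr hc]
        exact ENat.zero_ne_top
      have h4 : analyticOrderNatAt f s ≠ 0 := by
        intro h5
        have h6 := (hfr s hsb).analyticOrderAt_ne_zero.2 (hS0 s hs)
        rw [← Nat.cast_analyticOrderNatAt h3, h5] at h6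
        exact h6 rfl
      have h5 : 1 ≤ analyticOrderNatAt f s := Nat.one_le_iff_ne_zero.2 h4
      exact_mod_cast h5
    refine h2.trans ?_
    refine Finset.sum_le_sum_of_subset_of_nonneg Finset.subset_union_left ?_
    intro u _ _
    by_cases hu : u ∈ closedBall c r
    · rw [hdiv u hu]
      exact_mod_cast Nat.zero_le _
    · rw [Function.locallyFinsuppWithin.apply_eq_zero_of_notMem _ hu]
      simp
  · intro u hu
    rw [Finset.coe_union, Set.Finite.coe_toFinset]
    exact Or.inr hu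

theorem EE_diff : DifferentiableOn ℂ EE (ball 0 1) := by
  have h : DifferentiableOn ℂ (fun z : ℂ => 1 / (1 - z)) (ball 0 1) := by
    refine (differentiableOn_const _).div (by fun_prop) fun z hz h => ?_
    rw [mem_ball_zero_iff] at hz
    have : z = 1 := (sub_eq_zero.1 h).symm
    rw [this, norm_one] at hz
    exact lt_irrefl _ hz
  exact h.cexp.cexp.cexp

/-- first parameter, as a function -/
noncomputable def gf (z : ℂ) : ℂ := EE z * (Complex.exp (2 * Real.pi * Complex.I * EE z) - 1)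

theorem gf_diff : DifferentiableOn ℂ gf (ball 0 1) :=
  EE_diff.mul (((EE_diff.const_mul _).cexp).sub_const 1)

/-- the entire function with zeros at the integers -/
noncomputable def Phi (x : ℂ) : ℂ := Complex.exp (2 * Real.pi * Complex.I * x) - 1

theorem Phi_diff : Differentiable ℂ Phi := by unfold Phi; fun_prop

theorem Phi_eq_zero_iff (x : ℂ) : Phi x = 0 ↔ ∃ n : ℤ, x = n := by
  unfold Phi
  rw [sub_eq_zero, Complex.exp_eq_one_iff]
  have h2 : (2 * Real.pi * Complex.I : ℂ) ≠ 0 := Complex.two_pi_I_ne_zero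
  constructor
  · rintro ⟨n, hn⟩
    refine ⟨n, mul_left_cancel₀ h2 ?_⟩
    rw [hn]; ring
  · rintro ⟨n, rfl⟩
    exact ⟨n, by ring⟩

/-- the key fact -/
theorem key {v : ℂ → ℂ} (hv : DifferentiableOn ℂ v (ball 0 1)) {M : ℝ}
    (hM : ∀ z ∈ ball (0:ℂ) 1,
      ‖v z‖ ≤ Real.exp (Real.pi * Real.exp (Real.pi * (M + 192 / (1 - ‖z‖)))))
    (hz : ∀ z ∈ ball (0:ℂ) 1, gf z = v z → Phi (gf z) = 0) :
    ∀ z ∈ ball (0:ℂ) 1, Phi (v z) = 0 := by
  classical
  set F : ℂ → ℂ := fun z => Phi (v z) with hF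
  have hFd : DifferentiableOn ℂ F (ball 0 1) := Phi_diff.comp_differentiableOn hv
  have hFa : AnalyticOnNhd ℂ F (ball 0 1) := hFd.analyticOnNhd isOpen_ball
  -- a point `c` of the interval `[0, 1/2]` at which `F` does not vanish
  by_contra hcon
  have hc : ∃ c : ℝ, 0 ≤ c ∧ c ≤ 1 / 2 ∧ F c ≠ 0 := by
    by_contra hcc
    push Not at hcc
    apply hcon
    have hq : ((1/4 : ℝ) : ℂ) ∈ ball (0:ℂ) 1 := by
      rw [mem_ball_zero_iff, Complex.norm_real, Real.norm_eq_abs, abs_of_pos (by norm_num)]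
      norm_num
    have hfreq : ∃ᶠ z in 𝓝[≠] ((1/4 : ℝ) : ℂ), F z = 0 := by
      have h1 : Tendsto (fun t : ℝ => (t : ℂ)) (𝓝[≠] (1/4 : ℝ)) (𝓝[≠] ((1/4 : ℝ) : ℂ)) := by
        refine tendsto_nhdsWithin_iff.2 ⟨?_, ?_⟩
        · exact (Complex.continuous_ofReal.tendsto _).mono_left nhdsWithin_le_nhds
        · filter_upwards [self_mem_nhdsWithin] with t ht
          simp only [mem_compl_iff, mem_singleton_iff] at ht ⊢
          exact_mod_cast ht
      refine h1.frequently ?_
      have h2 : ∀ᶠ t : ℝ in 𝓝[≠] (1/4 : ℝ), F t = 0 := by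
        have : Icc (0:ℝ) (1/2) ∈ 𝓝 (1/4 : ℝ) := Icc_mem_nhds (by norm_num) (by norm_num)
        filter_upwards [nhdsWithin_le_nhds this] with t ht
        exact hcc t ht.1 ht.2
      exact h2.frequently
    intro z hz'
    exact hFa.eqOn_zero_of_preconnected_of_frequently_eq_zero
      (convex_ball _ _).isPreconnected hq hfreq hz'
  obtain ⟨c, hc0, hc1, hFc⟩ := hc
  obtain ⟨k₀, hk₀⟩ := cell hv hM
  set A := Real.pi * (M + 6144) with hA
  set B := 3072 * Real.pi with hB
  set C := 16 * (2 * Real.pi + 1 + |Real.log (1 / ‖F c‖)|) + k₀ + Real.exp (Real.exp (Real.exp 0)) + 2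
    with hC
  obtain ⟨X₀, hX₀, hbig⟩ := big A B C
  set X := X₀ with hX
  have hb := hbig X le_rfl
  set T := Real.exp (Real.exp (Real.exp X)) with hT
  set Q := Real.exp (Real.pi * Real.exp (A + B * X)) with hQ
  have hQ0 : 0 < Q := Real.exp_pos _
  have hC0 : 0 ≤ C := by
    have := abs_nonneg (Real.log (1 / ‖F c‖)); have := Real.pi_pos
    have := Real.exp_pos (Real.exp (Real.exp 0)); positivity
  set δ := 1 / (16 * (X + 2)) with hδ
  have hδ0 : 0 < δ := by positivity
  have hδ1 : δ ≤ 1 / 32 := by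
    rw [hδ, div_le_div_iff₀ (by positivity) (by norm_num)]; linarith
  set R := 1 - c - δ with hR
  set r := 1 - c - 2 * δ with hr
  have hr0 : 0 < r := by rw [hr]; linarith
  have hrR : r < R := by rw [hr, hR]; linarith
  have hcR : ∀ z : ℂ, ‖z - c‖ ≤ R → ‖z‖ ≤ 1 - δ := by
    intro z hz
    have h1 : ‖z‖ ≤ ‖z - c‖ + ‖(c:ℂ)‖ := by simpa using norm_add_le (z - c) (c:ℂ)
    rw [Complex.norm_real, Real.norm_eq_abs, abs_of_nonneg hc0] at h1
    rw [hR] at hz
    linarith
  have hcRb : ∀ z : ℂ, ‖z - c‖ ≤ R → z ∈ ball (0:ℂ) 1 := by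
    intro z hz
    rw [mem_ball_zero_iff]
    linarith [hcR z hz]
  have hFb : ∀ z : ℂ, ‖z - c‖ ≤ R → ‖F z‖ ≤ Real.exp (2 * Real.pi * Q + 1) := by
    intro z hz
    have h1 := hM z (hcRb z hz)
    have h2 := hcR z hz
    have h3 : ‖v z‖ ≤ Q := by
      refine h1.trans ?_
      rw [hQ]
      apply Real.exp_le_exp.2
      refine mul_le_mul_of_nonneg_left (Real.exp_le_exp.2 ?_) Real.pi_pos.le
      have h4 : 192 / (1 - ‖z‖) ≤ 192 * (16 * (X + 2)) := by
        rw [div_le_iff₀ (by linarith)]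
        have h5 : δ ≤ 1 - ‖z‖ := by linarith
        have h6 : 192 * (16 * (X + 2)) * δ = 192 := by rw [hδ]; field_simp
        calc (192:ℝ) = 192 * (16 * (X + 2)) * δ := h6.symm
          _ ≤ 192 * (16 * (X + 2)) * (1 - ‖z‖) := mul_le_mul_of_nonneg_left h5 (by positivity)
      have h7 : Real.pi * (M + 192 / (1 - ‖z‖)) ≤ Real.pi * (M + 192 * (16 * (X + 2))) :=
        mul_le_mul_of_nonneg_left (by linarith) Real.pi_pos.le
      refine h7.trans (le_of_eq ?_)
      rw [hA, hB]; ring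
    rw [hF]
    simp only
    unfold Phi
    have h8 : ‖Complex.exp (2 * Real.pi * Complex.I * v z)‖ ≤ Real.exp (2 * Real.pi * Q) := by
      refine (Complex.norm_exp_le_exp_norm _).trans (Real.exp_le_exp.2 ?_)
      rw [norm_mul, norm_mul, norm_mul, Complex.norm_I, Complex.norm_real, Complex.norm_ofNat,
        Real.norm_eq_abs, abs_of_pos Real.pi_pos, mul_one]
      exact mul_le_mul_of_nonneg_left h3 (by have := Real.pi_pos; positivity)
    have h9 := norm_sub_le (Complex.exp (2 * Real.pi * Complex.I * v z)) 1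
    rw [norm_one] at h9
    have h10 : 1 ≤ Real.exp (2 * Real.pi * Q) := Real.one_le_exp (by have := Real.pi_pos; positivity)
    have h11 : Real.exp (2 * Real.pi * Q + 1) = Real.exp (2 * Real.pi * Q) * Real.exp 1 :=
      Real.exp_add _ _
    have h12 := Real.add_one_le_exp (1:ℝ)
    rw [h11]
    nlinarith
  -- the zeros
  have hchoose : ∀ k : ℕ, ∃ z : ℂ, k₀ ≤ k → (z ∈ ball (0:ℂ) 1 ∧
      EE z * (Complex.exp (2 * Real.pi * Complex.I * EE z) - 1) = v z ∧
      ‖EE z - k‖ ≤ 1 / 12 ∧ ∀ c : ℝ, 0 ≤ c → c ≤ 1 / 2 →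
        ‖z - c‖ ≤ 1 - c - 1 / (8 * (Real.log (Real.log (Real.log k)) + 2))) := by
    intro k
    by_cases h : k₀ ≤ k
    · obtain ⟨z, hz1, hz2⟩ := hk₀ k h
      exact ⟨z, fun _ => ⟨hz1, hz2⟩⟩
    · exact ⟨0, fun h' => absurd h' h⟩
  choose ζ hζ using hchoose
  set k₁ : ℕ := max k₀ ⌈Real.exp (Real.exp (Real.exp 0))⌉₊ with hk₁
  set K : ℕ := ⌊T⌋₊ with hK
  have hinj : Set.InjOn ζ (Set.Ici k₀) := by
    intro j hj k hk hjk
    have h1 := (hζ j hj).2.2.1
    have h2 := (hζ k hk).2.2.1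
    rw [hjk] at h1
    have h3 : ‖(j:ℂ) - k‖ ≤ 1 / 6 := by
      have := norm_sub_le (EE (ζ k) - k) (EE (ζ k) - j)
      have e : EE (ζ k) - k - (EE (ζ k) - j) = (j:ℂ) - k := by ring
      rw [e] at this
      linarith
    have h4 : ‖(j:ℂ) - k‖ = |((j:ℤ) - (k:ℤ) : ℤ)| := by
      have : (j:ℂ) - k = (((j:ℤ) - (k:ℤ) : ℤ) : ℂ) := by push_cast; rfl
      rw [this, Complex.norm_intCast]
      push_cast; rfl
    rw [h4] at h3
    have h5 : |((j:ℤ) - (k:ℤ) : ℤ)| < 1 := by
      have : ((|((j:ℤ) - (k:ℤ) : ℤ)| : ℤ) : ℝ) < 1 := by linarith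
      exact_mod_cast this
    have h6 := Int.abs_lt_one_iff.1 h5
    have h7 : (j:ℤ) = k := by linarith
    exact_mod_cast h7
  set S : Finset ℂ := (Finset.Icc k₁ K).image ζ with hS
  have hcard : S.card = K + 1 - k₁ := by
    rw [hS, Finset.card_image_of_injOn, Nat.card_Icc]
    refine hinj.mono fun k hk => ?_
    rw [Finset.coe_Icc] at hk
    exact le_trans (le_max_left _ _) hk.1
  have hSr : ∀ s ∈ S, ‖s - c‖ ≤ r := by
    intro s hs
    rw [hS, Finset.mem_image] at hs
    obtain ⟨k, hk, rfl⟩ := hs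
    rw [Finset.mem_Icc] at hk
    have hk0 : k₀ ≤ k := le_trans (le_max_left _ _) hk.1
    have h1 := (hζ k hk0).2.2.2 c hc0 hc1
    refine h1.trans ?_
    -- `log log log k ≤ X`
    have hk3 : Real.exp (Real.exp (Real.exp 0)) ≤ k := by
      have h2 : ⌈Real.exp (Real.exp (Real.exp 0))⌉₊ ≤ k := le_trans (le_max_right _ _) hk.1
      exact Nat.ceil_le.1 h2
    have hkT : (k:ℝ) ≤ T := by
      have : (K:ℝ) ≤ T := Nat.floor_le (Real.exp_pos _).le
      have h3 : (k:ℝ) ≤ K := by exact_mod_cast hk.2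
      linarith
    have hkp : (0:ℝ) < k := lt_of_lt_of_le (Real.exp_pos _) hk3
    have l1 : Real.exp (Real.exp 0) ≤ Real.log k := by
      rw [Real.le_log_iff_exp_le hkp]; exact hk3
    have l1p : 0 < Real.log k := lt_of_lt_of_le (Real.exp_pos _) l1
    have l2 : Real.exp 0 ≤ Real.log (Real.log k) := by
      rw [Real.le_log_iff_exp_le l1p]; exact l1
    have l2p : 0 < Real.log (Real.log k) := lt_of_lt_of_le (Real.exp_pos _) l2
    have l3 : 0 ≤ Real.log (Real.log (Real.log k)) := by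
      rw [Real.le_log_iff_exp_le l2p]; exact l2
    have u1 : Real.log k ≤ Real.exp (Real.exp X) := by
      rw [Real.log_le_iff_le_exp hkp]; exact hkT
    have u2 : Real.log (Real.log k) ≤ Real.exp X := by
      rw [Real.log_le_iff_le_exp l1p]; exact u1
    have u3 : Real.log (Real.log (Real.log k)) ≤ X := by
      rw [Real.log_le_iff_le_exp l2p]; exact u2
    have h4 : 2 * δ ≤ 1 / (8 * (Real.log (Real.log (Real.log k)) + 2)) := by
      have : 2 * δ = 1 / (8 * (X + 2)) := by rw [hδ]; field_simp; norm_num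
      rw [this]
      apply one_div_le_one_div_of_le (by positivity)
      linarith
    rw [hr]
    linarith
  have hS0 : ∀ s ∈ S, F s = 0 := by
    intro s hs
    rw [hS, Finset.mem_image] at hs
    obtain ⟨k, hk, rfl⟩ := hs
    rw [Finset.mem_Icc] at hk
    have hk0 : k₀ ≤ k := le_trans (le_max_left _ _) hk.1
    obtain ⟨h1, h2, -, -⟩ := hζ k hk0
    have h3 : gf (ζ k) = v (ζ k) := h2
    have h4 := hz _ h1 h3
    rw [h3] at h4
    exact h4
  have hFR : AnalyticOnNhd ℂ F (closedBall (c:ℂ) R) := by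
    refine hFa.mono fun z hz => ?_
    rw [mem_closedBall_iff_norm] at hz
    exact hcRb z hz
  have hM1 : 1 ≤ Real.exp (2 * Real.pi * Q + 1) := Real.one_le_exp (by
    have := Real.pi_pos; positivity)
  have hj := jcard hFR hr0 hrR hM1 hFc hFb S hSr hS0
  -- bound the right hand side
  have hFcp : 0 < ‖F c‖ := norm_pos_iff.2 hFc
  have hnum : Real.log (Real.exp (2 * Real.pi * Q + 1) / ‖F c‖) =
      2 * Real.pi * Q + 1 + Real.log (1 / ‖F c‖) := by
    rw [div_eq_mul_one_div, Real.log_mul (Real.exp_pos _).ne' (one_div_pos.2 hFcp).ne', Real.log_exp]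
  have hden : δ ≤ Real.log (R / r) := by
    have h1 := Real.one_sub_inv_le_log_of_pos (show 0 < R / r by
      apply div_pos _ hr0; linarith)
    have h2 : (R / r)⁻¹ = r / R := inv_div _ _
    have hR0 : 0 < R := hr0.trans hrR
    have hR1 : R ≤ 1 := by rw [hR]; linarith
    have h3 : δ ≤ 1 - r / R := by
      have : 1 - r / R = (R - r) / R := by field_simp
      rw [this, le_div_iff₀ hR0]
      have h4 : R - r = δ := by rw [hR, hr]; ring
      rw [h4]
      nlinarith
    rw [h2] at h1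
    linarith
  have hlogp : 0 < Real.log (R / r) := lt_of_lt_of_le hδ0 hden
  have hle : Real.log (Real.exp (2 * Real.pi * Q + 1) / ‖F c‖) / Real.log (R / r) ≤
      16 * (2 * Real.pi + 1 + |Real.log (1 / ‖F c‖)|) * (X + 3) * (Q + 1) := by
    rw [div_le_iff₀ hlogp, hnum]
    have h1 : 2 * Real.pi * Q + 1 + Real.log (1 / ‖F c‖) ≤
        (2 * Real.pi + 1 + |Real.log (1 / ‖F c‖)|) * (Q + 1) := by
      have h2 := le_abs_self (Real.log (1 / ‖F c‖))
      have h3 := abs_nonneg (Real.log (1 / ‖F c‖))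
      have h4 := Real.pi_pos
      nlinarith
    have h5 : 1 ≤ 16 * (X + 3) * δ := by
      have : 16 * (X + 3) * δ = (X + 3) / (X + 2) := by rw [hδ]; field_simp
      rw [this, one_le_div (by linarith)]
      linarith
    have h6 : 0 ≤ (2 * Real.pi + 1 + |Real.log (1 / ‖F c‖)|) * (Q + 1) := by
      have := Real.pi_pos; positivity
    calc 2 * Real.pi * Q + 1 + Real.log (1 / ‖F c‖)
        ≤ (2 * Real.pi + 1 + |Real.log (1 / ‖F c‖)|) * (Q + 1) * 1 := by rw [mul_one]; exact h1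
      _ ≤ (2 * Real.pi + 1 + |Real.log (1 / ‖F c‖)|) * (Q + 1) * (16 * (X + 3) * δ) :=
          mul_le_mul_of_nonneg_left h5 h6
      _ = 16 * (2 * Real.pi + 1 + |Real.log (1 / ‖F c‖)|) * (X + 3) * (Q + 1) * δ := by ring
      _ ≤ _ := mul_le_mul_of_nonneg_left hden (by have := Real.pi_pos; positivity)
  -- the number of zeros
  have hT1 : T < K + 1 := Nat.lt_floor_add_one _
  have hk₁le : (k₁:ℝ) ≤ k₀ + Real.exp (Real.exp (Real.exp 0)) + 1 := by
    rw [hk₁]
    have h1 := (Nat.ceil_lt_add_one (Real.exp_pos (Real.exp (Real.exp 0))).le).le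
    have h2 : (max k₀ ⌈Real.exp (Real.exp (Real.exp 0))⌉₊ : ℕ) ≤ k₀ + ⌈Real.exp (Real.exp (Real.exp 0))⌉₊ :=
      max_le (by omega) (by omega)
    have h3 : ((max k₀ ⌈Real.exp (Real.exp (Real.exp 0))⌉₊ : ℕ) : ℝ) ≤
        k₀ + ⌈Real.exp (Real.exp (Real.exp 0))⌉₊ := by exact_mod_cast h2
    linarith
  have hcard2 : T - (k₀ + Real.exp (Real.exp (Real.exp 0)) + 1) ≤ S.card := by
    rw [hcard]
    have h1 : (K:ℝ) + 1 - k₁ ≤ ((K + 1 - k₁ : ℕ) : ℝ) := by
      have : K + 1 ≤ (K + 1 - k₁) + k₁ := by omega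
      have h2 : ((K + 1 : ℕ) : ℝ) ≤ ((K + 1 - k₁ + k₁ : ℕ) : ℝ) := by exact_mod_cast this
      push_cast at h2 ⊢
      linarith
    linarith
  have hX3 : 0 ≤ X + 3 := by linarith
  have h16 : 16 * (2 * Real.pi + 1 + |Real.log (1 / ‖F c‖)|) * (X + 3) * (Q + 1) ≤
      C * (X + 3) * (Q + 1) := by
    refine mul_le_mul_of_nonneg_right (mul_le_mul_of_nonneg_right ?_ hX3) (by linarith)
    have := Real.exp_pos (Real.exp (Real.exp 0))
    rw [hC]
    have h0 : (0:ℝ) ≤ k₀ := Nat.cast_nonneg _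
    linarith
  have hCk : k₀ + Real.exp (Real.exp (Real.exp 0)) + 1 ≤ C := by
    rw [hC]
    have := abs_nonneg (Real.log (1 / ‖F c‖)); have := Real.pi_pos
    nlinarith
  linarith

end Pool.Agent.Q120.Adm
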