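import Pool.Agent.Q120.Adm.Const

/-!
Majorants of `log⁺ |f|` on discs by real parts of entire functions.
-/

set_option autoImplicit false

open Metric Set Topology Filter Real

namespace Pool.Agent.Q120.Adm

theorem approx {r : ℝ} (hr : 0 < r) {b : ℝ → ℝ} (hb : Continuous b)
    (hper : Function.Periodic b (2 * π)) :
    ∃ P : ℂ → ℂ, Differentiable ℂ P ∧ ∀ θ : ℝ, |(P (r * Complex.exp (θ * Complex.I))).re - b θ| ≤ 1 / 2 := by
  have : Fact (0 < 2 * π) := ⟨by positivity⟩
  have hcont : Continuous (hper.lift : AddCircle (2 * π) → ℝ) := continuous_coinduced_dom.2 hb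
  set B : C(AddCircle (2 * π), ℂ) := ⟨fun x => ((hper.lift x : ℝ) : ℂ),
    Complex.continuous_ofReal.comp hcont⟩ with hB
  have hmem : B ∈ (Submodule.span ℂ (range <| @fourier (2 * π))).topologicalClosure := by
    rw [span_fourier_closure_eq_top]; trivial
  obtain ⟨q, hq, hqd⟩ := Metric.mem_closure_iff.1 hmem (1 / 2) (by norm_num)
  have hrc : (r:ℂ) ≠ 0 := by exact_mod_cast hr.ne'
  have key : ∀ q ∈ Submodule.span ℂ (range <| @fourier (2 * π)),
      ∃ P₁ P₂ : ℂ → ℂ, Differentiable ℂ P₁ ∧ Differentiable ℂ P₂ ∧ ∀ θ : ℝ,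
        q (θ : AddCircle (2 * π)) = P₁ (r * Complex.exp (θ * Complex.I)) +
          (starRingEnd ℂ) (P₂ (r * Complex.exp (θ * Complex.I))) := by
    intro q hq
    induction hq using Submodule.span_induction with
    | mem x hx =>
      obtain ⟨n, rfl⟩ := hx
      have hpow : ∀ (m : ℕ) (θ : ℝ), (r * Complex.exp (θ * Complex.I) / r) ^ m =
          Complex.exp (m * (θ * Complex.I)) := by
        intro m θ
        rw [mul_div_cancel_left₀ _ hrc, ← Complex.exp_nat_mul]
      have hcoe : ∀ (n : ℤ) (θ : ℝ), fourier n (θ : AddCircle (2 * π)) =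
          Complex.exp (n * (θ * Complex.I)) := by
        intro n θ
        rw [fourier_coe_apply]
        congr 1
        push_cast
        have : (π:ℂ) ≠ 0 := by exact_mod_cast pi_ne_zero
        field_simp
      rcases Int.eq_nat_or_neg n with ⟨m, rfl | rfl⟩
      · refine ⟨fun z => (z / r) ^ m, fun _ => 0, by fun_prop, by fun_prop, fun θ => ?_⟩
        beta_reduce
        rw [hcoe, hpow]
        simp
      · refine ⟨fun _ => 0, fun z => (z / r) ^ m, by fun_prop, by fun_prop, fun θ => ?_⟩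
        beta_reduce
        rw [fourier_neg, hcoe, hpow]
        simp
    | zero => exact ⟨fun _ => 0, fun _ => 0, by fun_prop, by fun_prop, fun θ => by simp⟩
    | add x y _ _ hx hy =>
      obtain ⟨P₁, P₂, h1, h2, h3⟩ := hx
      obtain ⟨Q₁, Q₂, h4, h5, h6⟩ := hy
      refine ⟨fun z => P₁ z + Q₁ z, fun z => P₂ z + Q₂ z, h1.add h4, h2.add h5, fun θ => ?_⟩
      rw [ContinuousMap.add_apply, h3, h6, map_add]
      ring
    | smul a x _ hx =>
      obtain ⟨P₁, P₂, h1, h2, h3⟩ := hx
      refine ⟨fun z => a * P₁ z, fun z => (starRingEnd ℂ) a * P₂ z, h1.const_mul _, h2.const_mul _,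
        fun θ => ?_⟩
      rw [ContinuousMap.smul_apply, h3, smul_eq_mul, map_mul, Complex.conj_conj]
      ring
  obtain ⟨P₁, P₂, h1, h2, h3⟩ := key q hq
  refine ⟨fun z => P₁ z + P₂ z, h1.add h2, fun θ => ?_⟩
  have h4 : dist (B (θ : AddCircle (2 * π))) (q (θ : AddCircle (2 * π))) ≤ dist B q :=
    ContinuousMap.dist_apply_le_dist _
  rw [h3, dist_eq_norm] at h4
  have h5 : B (θ : AddCircle (2 * π)) = (b θ : ℂ) := by
    rw [hB]; rfl
  rw [h5] at h4
  have h6 := (Complex.abs_re_le_norm _).trans (h4.trans hqd.le)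
  simp only [Complex.sub_re, Complex.add_re, Complex.ofReal_re, Complex.conj_re] at h6
  rw [abs_sub_comm] at h6
  exact h6

theorem majorant {f : ℂ → ℂ} {r : ℝ} (hr : 0 < r) (hr1 : r < 1)
    (hf : DifferentiableOn ℂ f (ball 0 1)) :
    ∃ P : ℂ → ℂ, Differentiable ℂ P ∧
      (∀ z : ℂ, ‖z‖ ≤ r → ‖f z‖ ≤ rexp (P z).re ∧ 0 ≤ (P z).re) ∧
      (P 0).re ≤ circleAverage (fun z => posLog ‖f z‖) 0 r + 1 := by
  have hsph : ∀ θ : ℝ, (r * Complex.exp (θ * Complex.I) : ℂ) ∈ ball (0:ℂ) 1 := by
    intro θ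
    rw [mem_ball_zero_iff, norm_mul, Complex.norm_exp_ofReal_mul_I, mul_one, Complex.norm_real,
      Real.norm_eq_abs, abs_of_pos hr]
    exact hr1
  have hcf : Continuous (fun θ : ℝ => f (r * Complex.exp (θ * Complex.I))) := by
    have h1 : Continuous (fun θ : ℝ => (r * Complex.exp (θ * Complex.I) : ℂ)) := by fun_prop
    exact hf.continuousOn.comp_continuous h1 hsph
  obtain ⟨P, hP, hPb⟩ := approx hr (b := fun θ => posLog ‖f (r * Complex.exp (θ * Complex.I))‖)
    (continuous_posLog.comp hcf.norm) (by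
      intro θ
      simp only
      congr 4
      push_cast
      rw [add_mul, Complex.exp_add, Complex.exp_two_pi_mul_I, mul_one])
  have hcb : closedBall (0:ℂ) r ⊆ ball 0 1 := closedBall_subset_ball hr1
  have hfr : frontier (ball (0:ℂ) r) = sphere 0 r := frontier_ball _ hr.ne'
  have hclb : closure (ball (0:ℂ) r) = closedBall 0 r := closure_ball _ hr.ne'
  have hrep : ∀ z ∈ sphere (0:ℂ) r, ∃ θ : ℝ, z = r * Complex.exp (θ * Complex.I) := by
    intro z hz
    refine ⟨Complex.arg z, ?_⟩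
    have h1 := Complex.norm_mul_exp_arg_mul_I z
    rw [mem_sphere_zero_iff_norm] at hz
    rw [hz] at h1
    exact h1.symm
  have hb : ∀ z ∈ sphere (0:ℂ) r, posLog ‖f z‖ ≤ (P z).re + 1 / 2 ∧ (P z).re + 1 / 2 ≤ posLog ‖f z‖ + 1 := by
    intro z hz
    obtain ⟨θ, rfl⟩ := hrep z hz
    have := abs_le.1 (hPb θ)
    constructor <;> linarith [this.1, this.2]
  have hfle : ∀ z : ℂ, ‖f z‖ ≤ rexp (posLog ‖f z‖) := by
    intro z
    by_cases h0 : ‖f z‖ = 0
    · rw [h0]; positivity
    · have hp : 0 < ‖f z‖ := lt_of_le_of_ne (norm_nonneg _) (Ne.symm h0)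
      calc ‖f z‖ = rexp (log ‖f z‖) := (Real.exp_log hp).symm
        _ ≤ _ := Real.exp_le_exp.2 (by rw [posLog_apply]; exact le_max_right _ _)
  have hE : Differentiable ℂ (fun z => Complex.exp (-(P z + 1 / 2))) := by fun_prop
  have hnE : ∀ z, ‖Complex.exp (-(P z + 1 / 2))‖ = rexp (-((P z).re + 1 / 2)) := by
    intro z
    rw [Complex.norm_exp]
    simp
  have hmax1 : ∀ z ∈ closedBall (0:ℂ) r, ‖f z * Complex.exp (-(P z + 1 / 2))‖ ≤ 1 := by
    intro z hz
    have hd : DiffContOnCl ℂ (fun z => f z * Complex.exp (-(P z + 1 / 2))) (ball 0 r) := by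
      refine ⟨(hf.mono (ball_subset_closedBall.trans hcb)).mul hE.differentiableOn, ?_⟩
      rw [hclb]
      exact (hf.continuousOn.mono hcb).mul hE.continuous.continuousOn
    refine Complex.norm_le_of_forall_mem_frontier_norm_le isBounded_ball hd (fun w hw => ?_)
      (by rw [hclb]; exact hz)
    rw [hfr] at hw
    rw [norm_mul, hnE]
    calc ‖f w‖ * rexp (-((P w).re + 1 / 2)) ≤ rexp (posLog ‖f w‖) * rexp (-((P w).re + 1 / 2)) :=
          mul_le_mul_of_nonneg_right (hfle w) (Real.exp_pos _).le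
      _ = rexp (posLog ‖f w‖ - ((P w).re + 1 / 2)) := by rw [← Real.exp_add]; ring_nf
      _ ≤ 1 := by rw [Real.exp_le_one_iff]; linarith [(hb w hw).1]
  have hmax2 : ∀ z ∈ closedBall (0:ℂ) r, ‖Complex.exp (-(P z + 1 / 2))‖ ≤ 1 := by
    intro z hz
    refine Complex.norm_le_of_forall_mem_frontier_norm_le isBounded_ball hE.diffContOnCl
      (fun w hw => ?_) (by rw [hclb]; exact hz)
    rw [hfr] at hw
    rw [hnE, Real.exp_le_one_iff]
    have := (hb w hw).1
    have h2 : 0 ≤ posLog ‖f w‖ := posLog_nonneg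
    linarith
  refine ⟨fun z => P z + 1 / 2, by fun_prop, fun z hz => ?_, ?_⟩
  · have hz' : z ∈ closedBall (0:ℂ) r := by rwa [mem_closedBall_zero_iff]
    have h1 := hmax1 z hz'
    have h2 := hmax2 z hz'
    rw [hnE, Real.exp_le_one_iff] at h2
    rw [norm_mul, hnE, Real.exp_neg] at h1
    have hre : (P z + 1 / 2).re = (P z).re + 1 / 2 := by simp
    rw [hre]
    refine ⟨?_, by linarith⟩
    have h3 : 0 < rexp ((P z).re + 1 / 2) := Real.exp_pos _
    rw [← div_eq_mul_inv, div_le_one h3] at h1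
    exact h1
  · have hre : ∀ z, (P z + 1 / 2).re = (P z).re + 1 / 2 := by intro z; simp
    have hA : AnalyticOnNhd ℂ (fun z => Complex.exp (P z + 1 / 2)) (closedBall 0 |r|) :=
      fun z _ => (show Differentiable ℂ (fun z => Complex.exp (P z + 1 / 2)) by fun_prop).analyticAt z
    have h1 := hA.circleAverage_log_norm_of_ne_zero (fun u _ => Complex.exp_ne_zero _)
    simp only [Complex.norm_exp, Real.log_exp] at h1
    rw [← h1]
    have hci : CircleIntegrable (fun z => posLog ‖f z‖) 0 r := by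
      apply ContinuousOn.circleIntegrable hr.le
      exact continuous_posLog.comp_continuousOn
        ((hf.continuousOn.mono (sphere_subset_closedBall.trans hcb)).norm)
    have hconst : circleAverage (fun z => posLog ‖f z‖) 0 r + 1 =
        circleAverage (fun z => posLog ‖f z‖ + 1) 0 r := by
      have h2 := circleAverage_add hci (circleIntegrable_const (1:ℝ) 0 r)
      have h3 : circleAverage (fun _ : ℂ => (1:ℝ)) 0 r = 1 := circleAverage_const _ _ _
      rw [h3] at h2
      exact h2.symm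
    rw [hconst]
    refine circleAverage_mono ?_ ?_ ?_
    · apply ContinuousOn.circleIntegrable hr.le
      exact (Complex.continuous_re.comp (hP.continuous.add continuous_const)).continuousOn
    · exact hci.add (circleIntegrable_const _ _ _)
    · intro z hz
      rw [abs_of_pos hr] at hz
      rw [hre]
      exact (hb z hz).2

end Pool.Agent.Q120.Adm
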