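import Pool.Agent.Q120.Adm.Nev1
import Pool.Agent.H5R3.Pick

/-!
Functions which are not admissible satisfy the predicate `NonAdm`, and conversely.
-/

set_option autoImplicit false

open Metric Set Topology Filter Real

namespace Pool.Agent.Q120.Adm

/-- the Nevanlinna characteristic -/
noncomputable def TT (f : ℂ → ℂ) (r : ℝ) : ℝ :=
  (2 * π)⁻¹ * ∫ θ in (0:ℝ)..(2 * π), posLog ‖f ((r : ℂ) * Complex.exp ((θ : ℂ) * Complex.I))‖

theorem TT_eq (f : ℂ → ℂ) (r : ℝ) : TT f r = circleAverage (fun z => posLog ‖f z‖) 0 r := by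
  simp only [TT, circleAverage, circleMap, zero_add, smul_eq_mul]

theorem TT_nonneg (f : ℂ → ℂ) (r : ℝ) : 0 ≤ TT f r := by
  unfold TT
  refine mul_nonneg (by positivity) (intervalIntegral.integral_nonneg (by positivity) ?_)
  intro θ _
  exact posLog_nonneg

theorem norm_one_sub (n : ℕ) : ‖(1 - (2 ^ n)⁻¹ : ℂ)‖ = 1 - (2 ^ n)⁻¹ := by
  have h1 : ((2:ℝ) ^ n)⁻¹ ≤ 1 := inv_le_one_of_one_le₀ (one_le_pow₀ (by norm_num))
  have : (1 - (2 ^ n)⁻¹ : ℂ) = ((1 - (2 ^ n)⁻¹ : ℝ) : ℂ) := by push_cast; rfl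
  rw [this, Complex.norm_real, Real.norm_eq_abs, abs_of_nonneg (by linarith)]

theorem nonAdm_of_bigO (f : H)
    (h : Asymptotics.IsBigO (𝓝[<] (1:ℝ)) (TT f) (fun r : ℝ => log (1 - r)⁻¹)) : NonAdm f := by
  obtain ⟨C, hC⟩ := h.bound
  obtain ⟨r₀, hr₀, hr₀s⟩ := mem_nhdsLT_iff_exists_Ioo_subset.1 hC
  have hr₀' : r₀ < 1 := hr₀
  set ρ : ℕ → ℝ := fun n => 1 - ((2:ℝ) ^ n)⁻¹ with hρ
  have hρ1 : ∀ n, ρ n < 1 := fun n => by
    have : 0 < ((2:ℝ) ^ n)⁻¹ := by positivity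
    rw [hρ]; simp only; linarith
  obtain ⟨N, hN⟩ := exists_pow_lt_of_lt_one (show 0 < 1 - r₀ by linarith) (show (2:ℝ)⁻¹ < 1 by norm_num)
  have hρN : ∀ n, N ≤ n → r₀ < ρ n := by
    intro n hn
    have h1 : ((2:ℝ) ^ n)⁻¹ ≤ ((2:ℝ) ^ N)⁻¹ :=
      inv_anti₀ (by positivity) (pow_le_pow_right₀ (by norm_num) hn)
    rw [inv_pow] at hN
    rw [hρ]; simp only; linarith
  set C₁ : ℝ := ∑ j ∈ Finset.range N, TT f (ρ j) with hC₁
  have hC₁0 : 0 ≤ C₁ := Finset.sum_nonneg fun j _ => TT_nonneg _ _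
  have hlog2 : 0 < log 2 := Real.log_pos (by norm_num)
  set A : ℝ := |C| * log 2 + C₁ with hA
  have hA0 : 0 ≤ A := by positivity
  have hTA : ∀ n : ℕ, TT f (ρ n) ≤ A * (n + 1) := by
    intro n
    have hn0 : (0:ℝ) ≤ n := Nat.cast_nonneg _
    by_cases hn : N ≤ n
    · have h1 := hr₀s ⟨hρN n hn, hρ1 n⟩
      simp only [mem_ofPred_eq] at h1
      have h2 : (1 - ρ n)⁻¹ = 2 ^ n := by rw [hρ]; simp
      rw [h2, Real.log_pow, Real.norm_eq_abs, Real.norm_eq_abs, abs_of_nonneg (TT_nonneg _ _),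
        abs_of_nonneg (by positivity)] at h1
      have h3 : C * (n * log 2) ≤ |C| * (n * log 2) :=
        mul_le_mul_of_nonneg_right (le_abs_self C) (by positivity)
      have h4 : |C| * (n * log 2) ≤ A * (n + 1) := by
        rw [hA]
        have := abs_nonneg C
        nlinarith [mul_nonneg hC₁0 hn0, mul_nonneg this hlog2.le]
      linarith
    · push Not at hn
      have h1 : TT f (ρ n) ≤ C₁ := Finset.single_le_sum (f := fun j => TT f (ρ j))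
        (fun j _ => TT_nonneg _ _) (Finset.mem_range.2 hn)
      have h2 : C₁ ≤ A := by rw [hA]; have := abs_nonneg C; nlinarith
      nlinarith
  set K : ℝ := rexp (2 * A + 1) with hK
  have hK0 : 0 < K := Real.exp_pos _
  refine ⟨lin 0, (not_isUnit_iff _).2 ⟨0, zero_mem, by rw [lin_app _ zero_mem, sub_zero]⟩, ?_,
    cst K, Cst_cst _, ?_⟩
  · intro c hc hIm
    obtain ⟨k, rfl⟩ := (Cst_iff _).1 hc
    rw [Im_iff] at hIm
    obtain ⟨z, hz, hzk⟩ := hIm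
    rw [lin_app _ hz, sub_zero] at hzk
    rw [Disc_iff, ← hzk]
    simpa using hz
  · intro x y hx hy hgeo
    obtain ⟨x, rfl⟩ := (Cst_iff _).1 hx
    obtain ⟨y, rfl⟩ := (Cst_iff _).1 hy
    obtain ⟨n, rfl, rfl⟩ := geo_only hK0 hgeo
    have hρp : 0 < ρ (n + 1) := by
      have : ((2:ℝ) ^ (n + 1))⁻¹ ≤ 2⁻¹ := by
        apply inv_anti₀ (by norm_num)
        calc (2:ℝ) = 2 ^ 1 := (pow_one 2).symm
          _ ≤ 2 ^ (n + 1) := pow_le_pow_right₀ (by norm_num) (by omega)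
      rw [hρ]; simp only; norm_num at this ⊢; linarith
    obtain ⟨P, hP, hP1, hP2⟩ := majorant hρp (hρ1 (n + 1)) (diff f)
    rw [← TT_eq] at hP2
    have hgd : DifferentiableOn ℂ (fun z => Complex.exp (P z)) (ball 0 1) := hP.cexp.differentiableOn
    refine ⟨mk _ hgd, (isUnit_iff _).2 fun z hz => by
      rw [mk_apply _ hz]; exact Complex.exp_ne_zero _, ?_, ?_⟩
    · intro c e e' hc he he' hle hcz
      obtain ⟨c, rfl⟩ := (Cst_iff _).1 hc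
      obtain ⟨e, rfl⟩ := (Cst_iff _).1 he
      obtain ⟨e', rfl⟩ := (Cst_iff _).1 he'
      rw [← cst_one, cst_sub, Le_iff, norm_one_sub] at hle
      obtain ⟨a, ha, h1, h2, h3⟩ := (CZ3_iff _ _ _).1 hcz
      rw [sub_app, cst_app _ ha, sub_eq_zero] at h1 h2 h3
      rw [lin_app _ ha, sub_zero] at h1
      rw [mk_apply _ ha] at h3
      have hρle : ((2:ℝ) ^ (n + 1))⁻¹ ≤ ((2:ℝ) ^ n)⁻¹ :=
        inv_anti₀ (by positivity) (pow_le_pow_right₀ (by norm_num) (by omega))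
      have h4 := hP1 a (by rw [h1]; refine hle.trans ?_; rw [hρ]; simp only; linarith)
      rw [← cst_one, Le_iff, Le_iff, ← h2, ← h3, Complex.norm_exp, norm_one]
      exact ⟨h4.1, Real.one_le_exp h4.2⟩
    · intro e he hcz
      obtain ⟨e, rfl⟩ := (Cst_iff _).1 he
      obtain ⟨a, ha, h1, h2⟩ := (CZ2_iff _ _).1 hcz
      rw [lin_app _ ha, sub_zero] at h1
      subst h1
      rw [sub_app, cst_app _ ha, sub_eq_zero, mk_apply _ ha] at h2
      rw [cst_mul, Le_iff, ← h2, Complex.norm_exp]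
      have e1 : ‖((K:ℂ) * (K:ℂ) ^ n)‖ = rexp ((n + 1) * (2 * A + 1)) := by
        rw [norm_mul, norm_pow, Complex.norm_real, Real.norm_eq_abs, abs_of_pos hK0, hK,
          ← Real.exp_nat_mul, ← Real.exp_add]
        congr 1; ring
      rw [e1]
      apply Real.exp_le_exp.2
      have h3 := hTA (n + 1)
      push_cast at h3
      have hn0 : (0:ℝ) ≤ n := Nat.cast_nonneg _
      nlinarith [mul_nonneg hA0 hn0]

/-- a form of the Schwarz-Pick lemma -/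
theorem pickb {φ : ℂ → ℂ} (hφ : DifferentiableOn ℂ φ (ball 0 1)) (h1 : ∀ z ∈ ball (0:ℂ) 1, ‖φ z‖ < 1)
    {a : ℂ} (ha : a ∈ ball (0:ℂ) 1) : (1 - ‖φ 0‖) / 2 * (1 - ‖a‖) ≤ 1 - ‖φ a‖ := by
  have ha1 : ‖a‖ < 1 := by simpa using ha
  have h01 := h1 0 zero_mem
  by_cases h0 : φ a = 0
  · rw [h0, norm_zero]
    nlinarith [norm_nonneg a, norm_nonneg (φ 0)]
  · have hn : 0 < ‖φ a‖ := norm_pos_iff.2 h0
    have hnc : (‖φ a‖ : ℂ) ≠ 0 := by exact_mod_cast hn.ne'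
    set l : ℂ := (starRingEnd ℂ) (φ a) / ‖φ a‖ with hl
    have hl1 : ‖l‖ = 1 := by
      rw [hl, norm_div, RCLike.norm_conj, Complex.norm_real, norm_norm, div_self hn.ne']
    have hla : l * φ a = ‖φ a‖ := by
      rw [hl, div_mul_eq_mul_div, div_eq_iff hnc, mul_comm, Complex.mul_conj, Complex.normSq_eq_norm_sq]
      push_cast; ring
    have hre : ∀ z ∈ ball (0:ℂ) 1, 0 < (1 - l * φ z).re := by
      intro z hz
      have h2 := (Complex.re_le_norm (l * φ z))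
      rw [norm_mul, hl1, one_mul] at h2
      have := h1 z hz
      simp only [Complex.sub_re, Complex.one_re]
      linarith
    have hH := (Pool.Agent.H5R3.harnack (P := fun z => 1 - l * φ z)
      ((differentiableOn_const _).sub (hφ.const_mul l)) hre ha).2
    rw [sub_zero, div_one] at hH
    have e1 : ‖1 - l * φ a‖ = 1 - ‖φ a‖ := by
      have : (1 - l * φ a) = ((1 - ‖φ a‖ : ℝ) : ℂ) := by rw [hla]; push_cast; rfl
      rw [this, Complex.norm_real, Real.norm_eq_abs, abs_of_pos (by linarith [h1 a ha])]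
    have e2 : 1 - ‖φ 0‖ ≤ ‖1 - l * φ 0‖ := by
      have := norm_sub_norm_le (1:ℂ) (l * φ 0)
      rwa [norm_one, norm_mul, hl1, one_mul] at this
    rw [e1] at hH
    have h3 := h1 a ha
    have h4 : (1 - ‖a‖) * (1 - ‖φ 0‖) ≤ (1 - ‖a‖) * ‖1 - l * φ 0‖ :=
      mul_le_mul_of_nonneg_left e2 (by linarith)
    have h5 : (1 + ‖a‖) * (1 - ‖φ a‖) ≤ 2 * (1 - ‖φ a‖) :=
      mul_le_mul_of_nonneg_right (by linarith) (by linarith)
    nlinarith

/-- Harnack's inequality for `log |g|` -/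
theorem harn {g : ℂ → ℂ} (hg : DifferentiableOn ℂ g (ball 0 1)) (hg0 : ∀ z ∈ ball (0:ℂ) 1, g z ≠ 0)
    {r : ℝ} (hr1 : r < 1) (hgr : ∀ z ∈ ball (0:ℂ) r, 1 ≤ ‖g z‖) {p : ℂ} (hp : p ∈ ball (0:ℂ) r) :
    (1 - ‖p‖ / r) * (log ‖g 0‖ + 1) ≤ (1 + ‖p‖ / r) * (log ‖g p‖ + 1) := by
  have hr0 : 0 < r := lt_of_le_of_lt dist_nonneg (mem_ball.1 hp)
  have hsub : ball (0:ℂ) r ⊆ ball 0 1 := ball_subset_ball hr1.le
  obtain ⟨G, hG, hG'⟩ := Pool.Agent.Lev.J_schottky.exists_log hg hg0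
  have hlog : ∀ z ∈ ball (0:ℂ) 1, log ‖g z‖ = (G z).re := by
    intro z hz
    rw [← hG' z hz, Complex.norm_exp, Real.log_exp]
  set P : ℂ → ℂ := fun z => G z + (1 - (G p).im * Complex.I) with hP
  have hPre : ∀ z, (P z).re = (G z).re + 1 := by
    intro z; rw [hP]; simp
  have hre : ∀ z ∈ ball (0:ℂ) r, 0 < (P z).re := by
    intro z hz
    rw [hPre, ← hlog z (hsub hz)]
    have := Real.log_nonneg (hgr z hz)
    linarith
  have hH := (Pool.Agent.H5R3.harnack (P := P) ((hG.mono hsub).add_const _) hre hp).2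
  rw [sub_zero] at hH
  have e1 : ‖P p‖ = log ‖g p‖ + 1 := by
    have h1 : P p = (((G p).re + 1 : ℝ) : ℂ) := by
      rw [hP]
      apply Complex.ext <;> simp
    have h2 := hre p hp
    rw [hPre] at h2
    rw [h1, Complex.norm_real, Real.norm_eq_abs, abs_of_pos h2, hlog p (hsub hp)]
  have e2 : log ‖g 0‖ + 1 ≤ ‖P 0‖ := by
    rw [hlog 0 zero_mem, ← hPre]
    exact Complex.re_le_norm _
  rw [e1] at hH
  have hq : ‖p‖ / r ≤ 1 := by
    rw [div_le_one hr0]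
    exact (mem_ball_zero_iff.1 hp).le
  exact le_trans (mul_le_mul_of_nonneg_left e2 (by linarith)) hH

theorem bigO_of_nonAdm (f : H) (h : NonAdm f) :
    Asymptotics.IsBigO (𝓝[<] (1:ℝ)) (TT f) (fun r : ℝ => log (1 - r)⁻¹) := by
  obtain ⟨φ, hφu, hφd, K, hK, h⟩ := h
  obtain ⟨κ, rfl⟩ := (Cst_iff _).1 hK
  obtain ⟨p, hp, hp0⟩ := (not_isUnit_iff _).1 hφu
  have hp1 : ‖p‖ < 1 := by simpa using hp
  have hpn := norm_nonneg p
  have hφ1 : ∀ z ∈ ball (0:ℂ) 1, ‖(φ : ℂ → ℂ) z‖ < 1 := fun z hz =>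
    (Disc_iff _).1 (hφd (cst ((φ : ℂ → ℂ) z)) (Cst_cst _) ((Im_iff _ _).2 ⟨z, hz, rfl⟩))
  have hG : ∀ n : ℕ, ∃ g : H, (∀ z ∈ ball (0:ℂ) 1, (g : ℂ → ℂ) z ≠ 0) ∧
      (∀ a ∈ ball (0:ℂ) 1, ‖(φ : ℂ → ℂ) a‖ ≤ 1 - (2 ^ n)⁻¹ →
        ‖(f : ℂ → ℂ) a‖ ≤ ‖(g : ℂ → ℂ) a‖ ∧ 1 ≤ ‖(g : ℂ → ℂ) a‖) ∧
      ‖(g : ℂ → ℂ) p‖ ≤ ‖κ‖ ^ (n + 1) := by
    intro n
    obtain ⟨g, hgu, hg1, hg2⟩ := h _ _ (Cst_cst _) (Cst_cst _) (geo_mem κ n)
    refine ⟨g, (isUnit_iff _).1 hgu, fun a ha hle => ?_, ?_⟩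
    · have h1 := hg1 (cst ((φ : ℂ → ℂ) a)) (cst ((f : ℂ → ℂ) a)) (cst ((g : ℂ → ℂ) a))
        (Cst_cst _) (Cst_cst _) (Cst_cst _)
        (by rw [← cst_one, cst_sub, Le_iff, norm_one_sub]; exact hle)
        ((CZ3_iff _ _ _).2 ⟨a, ha, by rw [sub_app, cst_app _ ha, sub_self],
          by rw [sub_app, cst_app _ ha, sub_self], by rw [sub_app, cst_app _ ha, sub_self]⟩)
      rw [← cst_one, Le_iff, Le_iff, norm_one] at h1
      exact h1
    · have h1 := hg2 (cst ((g : ℂ → ℂ) p)) (Cst_cst _)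
        ((CZ2_iff _ _).2 ⟨p, hp, hp0, by rw [sub_app, cst_app _ hp, sub_self]⟩)
      rw [cst_mul, Le_iff, norm_mul, norm_pow] at h1
      rw [pow_succ']
      exact h1
  -- constants
  set c₁ : ℝ := (1 - ‖(φ : ℂ → ℂ) 0‖) / 2 with hc₁
  have hc₁0 : 0 < c₁ := by have := hφ1 0 zero_mem; rw [hc₁]; linarith
  have hc₁1 : c₁ ≤ 1 := by have := norm_nonneg ((φ : ℂ → ℂ) 0); rw [hc₁]; linarith
  set r₁ : ℝ := (1 + ‖p‖) / 2 with hr₁
  have hr₁p : ‖p‖ < r₁ := by rw [hr₁]; linarith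
  have hr₁0 : 0 < r₁ := by rw [hr₁]; linarith
  have hr₁1 : r₁ < 1 := by rw [hr₁]; linarith
  set q₁ : ℝ := ‖p‖ / r₁ with hq₁
  have hq₁1 : q₁ < 1 := by rw [hq₁, div_lt_one hr₁0]; exact hr₁p
  set L : ℝ := |log ‖κ‖| with hL
  have hL0 : 0 ≤ L := abs_nonneg _
  set C₂ : ℝ := 2 / (1 - q₁) with hC₂
  have hC₂0 : 0 < C₂ := div_pos two_pos (by linarith)
  have hlog2 : 0 < log 2 := Real.log_pos (by norm_num)
  set D : ℝ := |log c₁⁻¹| with hD
  have hD0 : 0 ≤ D := abs_nonneg _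
  refine Asymptotics.IsBigO.of_bound (C₂ * (((D + 1) / log 2 + 2) * L + 1)) ?_
  have hr₂ : max r₁ (1 - rexp (-1)) < 1 := max_lt hr₁1 (by linarith [Real.exp_pos (-1)])
  filter_upwards [Ioo_mem_nhdsLT hr₂] with r hr
  have hrr₁ : r₁ < r := lt_of_le_of_lt (le_max_left _ _) hr.1
  have hre : 1 - rexp (-1) < r := lt_of_le_of_lt (le_max_right _ _) hr.1
  have hr1 : r < 1 := hr.2
  have hr0 : 0 < r := hr₁0.trans hrr₁
  have h1r : 0 < 1 - r := by linarith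
  have hell : 1 ≤ log (1 - r)⁻¹ := by
    rw [Real.log_inv]
    have : log (1 - r) ≤ -1 := by
      rw [Real.log_le_iff_le_exp h1r]; linarith
    linarith
  set ell := log (1 - r)⁻¹ with hellD
  rw [Real.norm_eq_abs, Real.norm_eq_abs, abs_of_nonneg (TT_nonneg _ _),
    abs_of_nonneg (by linarith : (0:ℝ) ≤ ell)]
  -- the index
  set t : ℝ := log (c₁ * (1 - r))⁻¹ / log 2 with ht
  have hcr : 0 < c₁ * (1 - r) := mul_pos hc₁0 h1r
  have hcr1 : c₁ * (1 - r) ≤ 1 := by nlinarith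
  have ht0 : 0 ≤ t := div_nonneg (Real.log_nonneg (by
    rw [one_le_inv₀ hcr]; exact hcr1)) hlog2.le
  set n : ℕ := ⌈t⌉₊ with hn
  have hn1 : t ≤ n := Nat.le_ceil _
  have hn2 : (n:ℝ) < t + 1 := Nat.ceil_lt_add_one ht0
  have h2n : ((2:ℝ) ^ n)⁻¹ ≤ c₁ * (1 - r) := by
    rw [inv_le_comm₀ (by positivity) hcr]
    have h3 : log (c₁ * (1 - r))⁻¹ ≤ n * log 2 := by
      rw [ht, div_le_iff₀ hlog2] at hn1; exact hn1
    rw [← Real.log_pow] at h3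
    exact (Real.log_le_log_iff (inv_pos.2 hcr) (by positivity)).1 h3
  have htl : t ≤ (D + ell) / log 2 := by
    rw [ht]
    apply div_le_div_of_nonneg_right _ hlog2.le
    rw [mul_inv, Real.log_mul (inv_pos.2 hc₁0).ne' (inv_pos.2 h1r).ne']
    have := le_abs_self (log c₁⁻¹)
    rw [hD, hellD]
    linarith
  obtain ⟨g, hg0, hg1, hg2⟩ := hG n
  have hgr : ∀ a : ℂ, ‖a‖ ≤ r → ‖(f : ℂ → ℂ) a‖ ≤ ‖(g : ℂ → ℂ) a‖ ∧ 1 ≤ ‖(g : ℂ → ℂ) a‖ := by
    intro a ha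
    have hab : a ∈ ball (0:ℂ) 1 := by rw [mem_ball_zero_iff]; linarith
    refine hg1 a hab ?_
    have h3 := pickb (diff φ) hφ1 hab
    rw [← hc₁] at h3
    have h4 : c₁ * (1 - r) ≤ c₁ * (1 - ‖a‖) := mul_le_mul_of_nonneg_left (by linarith) hc₁0.le
    linarith
  -- the mean value
  have hTg : TT f r ≤ log ‖(g : ℂ → ℂ) 0‖ := by
    rw [TT_eq]
    have hcb : closedBall (0:ℂ) r ⊆ ball 0 1 := closedBall_subset_ball hr1
    have hA : AnalyticOnNhd ℂ (g : ℂ → ℂ) (closedBall 0 |r|) := by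
      rw [abs_of_pos hr0]
      exact ((diff g).analyticOnNhd isOpen_ball).mono hcb
    rw [← hA.circleAverage_log_norm_of_ne_zero (fun u hu => hg0 u (by
      rw [abs_of_pos hr0] at hu; exact hcb hu))]
    refine circleAverage_mono ?_ ?_ ?_
    · apply ContinuousOn.circleIntegrable hr0.le
      exact continuous_posLog.comp_continuousOn
        (((diff f).continuousOn.mono (sphere_subset_closedBall.trans hcb)).norm)
    · apply ContinuousOn.circleIntegrable hr0.le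
      refine ContinuousOn.log (((diff g).continuousOn.mono
        (sphere_subset_closedBall.trans hcb)).norm) fun z hz => ?_
      exact norm_ne_zero_iff.2 (hg0 z (hcb (sphere_subset_closedBall hz)))
    · intro z hz
      rw [abs_of_pos hr0, mem_sphere_zero_iff_norm] at hz
      obtain ⟨h3, h4⟩ := hgr z hz.le
      rw [posLog_eq_log_max_one (norm_nonneg _)]
      exact Real.log_le_log (lt_of_lt_of_le one_pos (le_max_left _ _)) (max_le h4 h3)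
  have hpr : p ∈ ball (0:ℂ) r := by rw [mem_ball_zero_iff]; linarith
  have hH := harn (diff g) hg0 hr1 (fun z hz => (hgr z (mem_ball_zero_iff.1 hz).le).2) hpr
  have hgp1 : 1 ≤ ‖(g : ℂ → ℂ) p‖ := (hgr p (mem_ball_zero_iff.1 hpr).le).2
  have hg01 : 1 ≤ ‖(g : ℂ → ℂ) 0‖ := (hgr 0 (by rw [norm_zero]; exact hr0.le)).2
  have hlgp : log ‖(g : ℂ → ℂ) p‖ ≤ (n + 1) * L := by
    have h3 := Real.log_le_log (by linarith) hg2
    rw [Real.log_pow] at h3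
    push_cast at h3
    have h4 : ((n:ℝ) + 1) * log ‖κ‖ ≤ (n + 1) * L :=
      mul_le_mul_of_nonneg_left (le_abs_self _) (by positivity)
    linarith
  have hlp0 : 0 ≤ log ‖(g : ℂ → ℂ) p‖ := Real.log_nonneg hgp1
  have hl00 : 0 ≤ log ‖(g : ℂ → ℂ) 0‖ := Real.log_nonneg hg01
  have hqq : ‖p‖ / r ≤ q₁ := by
    rw [hq₁]
    exact div_le_div_of_nonneg_left hpn hr₁0 hrr₁.le
  have hfin : log ‖(g : ℂ → ℂ) 0‖ ≤ C₂ * (log ‖(g : ℂ → ℂ) p‖ + 1) := by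
    have h3 : (1 - q₁) * (log ‖(g : ℂ → ℂ) 0‖ + 1) ≤ 2 * (log ‖(g : ℂ → ℂ) p‖ + 1) := by
      calc (1 - q₁) * (log ‖(g : ℂ → ℂ) 0‖ + 1) ≤ (1 - ‖p‖ / r) * (log ‖(g : ℂ → ℂ) 0‖ + 1) :=
            mul_le_mul_of_nonneg_right (by linarith) (by linarith)
        _ ≤ (1 + ‖p‖ / r) * (log ‖(g : ℂ → ℂ) p‖ + 1) := hH
        _ ≤ 2 * (log ‖(g : ℂ → ℂ) p‖ + 1) :=
            mul_le_mul_of_nonneg_right (by linarith) (by linarith)
    have h4 : C₂ * (log ‖(g : ℂ → ℂ) p‖ + 1) = (2 * (log ‖(g : ℂ → ℂ) p‖ + 1)) / (1 - q₁) := by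
      rw [hC₂]; ring
    rw [h4, le_div_iff₀ (by linarith)]
    nlinarith
  have hn3 : (n:ℝ) + 1 ≤ ((D + 1) / log 2 + 2) * ell := by
    have h3 : (D + ell) / log 2 ≤ (D + 1) / log 2 * ell := by
      rw [div_mul_eq_mul_div]
      apply div_le_div_of_nonneg_right _ hlog2.le
      nlinarith
    nlinarith
  calc TT f r ≤ log ‖(g : ℂ → ℂ) 0‖ := hTg
    _ ≤ C₂ * (log ‖(g : ℂ → ℂ) p‖ + 1) := hfin
    _ ≤ C₂ * ((((D + 1) / log 2 + 2) * ell) * L + ell) := by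
        apply mul_le_mul_of_nonneg_left _ hC₂0.le
        have := mul_le_mul_of_nonneg_right hn3 hL0
        linarith
    _ = C₂ * (((D + 1) / log 2 + 2) * L + 1) * ell := by ring

theorem nonAdm_iff (f : H) : NonAdm f ↔
    Asymptotics.IsBigO (𝓝[<] (1:ℝ)) (TT f) (fun r : ℝ => log (1 - r)⁻¹) :=
  ⟨bigO_of_nonAdm f, nonAdm_of_bigO f⟩

end Pool.Agent.Q120.Adm
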